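import Pool.Agent.H587R2.IPC.Cov

/-!
The covering property gives a computable approximation of `B` (in the form of candidates).
-/

namespace Pool.Agent.H587R2.IPC

open Pool.Agent.Helper446 Pool.Agent.Helper446.RE Pool.Agent.Helper446.Oracle
open Pool.Agent.H587R2.NCE
open Encodable MeasureTheory
open scoped ENNReal

/-- Level of a request. -/
def lv (x : ℕ) : ℕ := x.unpair.1
/-- Exponent of the weight of a request. -/
def kq (x : ℕ) : ℕ := x.unpair.2.unpair.1
/-- Tag of a request. -/
def tg (x : ℕ) : ℕ := x.unpair.2.unpair.2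
/-- The request with given data. -/
def mkr (n k t : ℕ) : ℕ := Nat.pair n (Nat.pair k t)

@[simp] theorem lv_mkr (n k t : ℕ) : lv (mkr n k t) = n := by simp [lv, mkr]
@[simp] theorem kq_mkr (n k t : ℕ) : kq (mkr n k t) = k := by simp [kq, mkr]
@[simp] theorem tg_mkr (n k t : ℕ) : tg (mkr n k t) = t := by simp [tg, mkr]
theorem mkr_eta (x : ℕ) : mkr (lv x) (kq x) (tg x) = x := by simp [lv, kq, tg, mkr]

@[fun_prop] theorem c_lv {α : Type*} [Primcodable α] {f : α → ℕ} (hf : Computable f) :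
    Computable fun a => lv (f a) := by unfold lv; fun_prop
@[fun_prop] theorem c_kq {α : Type*} [Primcodable α] {f : α → ℕ} (hf : Computable f) :
    Computable fun a => kq (f a) := by unfold kq; fun_prop
@[fun_prop] theorem c_tg {α : Type*} [Primcodable α] {f : α → ℕ} (hf : Computable f) :
    Computable fun a => tg (f a) := by unfold tg; fun_prop

/-- Universal request. -/
def mkU (e x : ℕ) : ℕ := mkr (lv x) (kq x + e + 1) (Nat.pair e x)

/-- Universal set of requests. -/
def Un (u : ℕ) : Prop := Tr kq (tg u).unpair.1 (tg u).unpair.2 ∧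
  lv u = lv (tg u).unpair.2 ∧ kq u = kq (tg u).unpair.2 + (tg u).unpair.1 + 1

theorem Un_mkU {e x : ℕ} (h : Tr kq e x) : Un (mkU e x) := by
  unfold Un mkU
  simp only [tg_mkr, Nat.unpair_pair, lv_mkr, kq_mkr]
  exact ⟨h, trivial, trivial⟩

theorem wsum_Un : wsum kq Un ≤ 1 := by
  have h1 : wsum kq Un ≤ wsum (fun i : ℕ × ℕ => kq (mkU i.1 i.2))
      (fun i => Tr kq i.1 i.2) := by
    refine wsum_surj (f := fun i : ℕ × ℕ => mkU i.1 i.2) fun u hu => ?_
    refine ⟨((tg u).unpair.1, (tg u).unpair.2), hu.1, ?_⟩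
    unfold mkU
    simp only [Nat.pair_unpair]
    rw [← hu.2.1, ← hu.2.2]
    exact mkr_eta u
  refine h1.trans ?_
  unfold wsum
  rw [ENNReal.tsum_prod' (f := fun i : ℕ × ℕ => iw (Tr kq i.1 i.2) (hp (kq (mkU i.1 i.2))))]
  calc ∑' a, ∑' b, iw (Tr kq a b) (hp (kq (mkU a b)))
      = ∑' a, hp (a + 0 + 1) * wsum kq (Tr kq a) := by
        refine tsum_congr fun a => ?_
        unfold wsum
        rw [← ENNReal.tsum_mul_left]
        refine tsum_congr fun b => ?_
        unfold mkU
        rw [kq_mkr, show kq b + a + 1 = (a + 0 + 1) + kq b by ring, hp_add, iw_mul]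
    _ ≤ ∑' a, hp (a + 0 + 1) * 1 := by
        refine ENNReal.tsum_le_tsum fun a => ?_
        gcongr
        exact wsum_Tr kq a
    _ = 1 := by
        simp only [mul_one]
        rw [tsum_hp 0, hp_zero]

/-- The string of an element. -/
def strg (y : ℕ) : List Bool := (decode (α := List Bool) y.unpair.2).getD []

/-- The weight exponent of an element. -/
def ky (y : ℕ) : ℕ := kq y.unpair.1

@[fun_prop] theorem c_ky {α : Type*} [Primcodable α] {f : α → ℕ} (hf : Computable f) :
    Computable fun a => ky (f a) := by unfold ky; fun_prop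

@[fun_prop] theorem c_strg {α : Type*} [Primcodable α] {f : α → ℕ} (hf : Computable f) :
    Computable fun a => strg (f a) := by
  unfold strg
  exact Primrec.option_getD.to_comp.comp (cdecode (by fun_prop)) (Computable.const [])

@[simp] theorem strg_pair (u : ℕ) (σ : List Bool) : strg (Nat.pair u (encode σ)) = σ := by
  simp [strg]

@[simp] theorem ky_pair (u v : ℕ) : ky (Nat.pair u v) = kq u := by simp [ky]

/-- Elements with given string. -/
def qs (σ : List Bool) (y : ℕ) : Bool := decide (strg y = σ)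
/-- Elements with given length of the string. -/
def ql (n y : ℕ) : Bool := decide ((strg y).length = n)

/-- Share of a string. -/
noncomputable def nu (e : ℕ) (σ : List Bool) : ℝ≥0∞ := wsum ky (Qs (qs σ) e)
/-- Total of a level. -/
noncomputable def fn (e n : ℕ) : ℝ≥0∞ := wsum ky (Qs (ql n) e)

theorem shares {B : ℕ → Bool} (hCP : CP B) : ∃ e d, (∀ n, fn e n ≠ 0) ∧ (∀ n, fn e n ≠ ⊤) ∧
    ∀ n, hp d * fn e n ≤ nu e (sg B n) := by
  let W : ℕ → Prop := fun y => Un y.unpair.1 ∧ y.unpair.2 = encode (sg B (lv y.unpair.1))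
  have hW1 : wsum ky W ≤ 1 := by
    refine le_trans ?_ wsum_Un
    refine le_trans (wsum_surj (k := ky) (T := Un)
      (f := fun u => Nat.pair u (encode (sg B (lv u)))) fun y hy => ?_) ?_
    · have h1 : y.unpair.2 = encode (sg B (lv y.unpair.1)) := hy.2
      refine ⟨y.unpair.1, hy.1, ?_⟩
      show Nat.pair y.unpair.1 (encode (sg B (lv y.unpair.1))) = y
      rw [← h1]
      exact Nat.pair_unpair y
    · exact le_of_eq (congrArg (fun k => wsum k Un) (funext fun u => ky_pair _ _))
  have hUn : REPred Un := by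
    unfold Un
    refine RE.and (re_Tr (k := kq) (by fun_prop) (e := fun u : ℕ => (tg u).unpair.1)
      (x := fun u => (tg u).unpair.2) (by fun_prop) (by fun_prop)) (RE.and ?_ ?_)
    · exact RE.eq (by fun_prop) (by fun_prop)
    · exact RE.eq (by fun_prop) (by fun_prop)
  have hWre : REIn (st B) W := by
    refine REIn.and ((REIn.of_re hUn).comp (f := fun y : ℕ => y.unpair.1) (by fun_prop)) ?_
    refine REIn_sg (S := fun (y : ℕ) (η : List Bool) => y.unpair.2 = encode η) ?_
      (f := fun y => lv y.unpair.1) (by fun_prop)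
    exact REIn.of_re (RE.eq (by fun_prop) (by fun_prop))
  obtain ⟨L, hL, hWL, hLt⟩ := hCP ky (by fun_prop) W hWre hW1
  let Lc : ℕ → Prop := fun y => L y ∧ (strg y).length = lv y.unpair.1
  have hLc : REPred Lc := RE.and hL (RE.eq (by fun_prop) (by fun_prop))
  have hLct : wsum ky Lc ≠ ⊤ := ne_top_of_le_ne_top hLt (wsum_mono fun y hy => hy.1)
  obtain ⟨c, hc⟩ := exists_hp_mul_le hLct
  obtain ⟨eL, heL⟩ := wst_univ hLc
  -- the requests made because of `L`
  let Rr : ℕ → Prop := fun x => Lc (tg x) ∧ lv x = lv (tg x).unpair.1 ∧ kq x = ky (tg x) + c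
  have hRr : REPred Rr := RE.and (RE.comp hLc (f := tg) (by fun_prop))
    (RE.and (RE.eq (by fun_prop) (by fun_prop)) (RE.eq (by fun_prop) (by fun_prop)))
  have hRr1 : wsum kq Rr ≤ 1 := by
    refine le_trans ?_ hc
    rw [← wsum_add]
    refine le_trans (wsum_surj (k := kq) (T := Lc)
      (f := fun y => mkr (lv y.unpair.1) (ky y + c) y) fun x hx => ?_) ?_
    · refine ⟨tg x, hx.1, ?_⟩
      rw [← hx.2.1, ← hx.2.2]
      exact mkr_eta x
    · exact le_of_eq (congrArg (fun k => wsum k Lc) (funext fun y => kq_mkr _ _ _))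
  obtain ⟨e, he⟩ := exists_Tr hRr hRr1
  -- basic requests
  let R0 : ℕ → Prop := fun x => x = mkr (lv x) (lv x + 1) 0
  have hR0 : REPred R0 := by
    refine RE.eq (by fun_prop) ?_
    unfold mkr
    fun_prop
  have hR01 : wsum kq R0 ≤ 1 := by
    refine le_trans (wsum_surj (k := kq) (T := fun _ : ℕ => True)
      (f := fun n => mkr n (n + 1) 0) fun x hx => ⟨lv x, trivial, hx.symm⟩) ?_
    unfold wsum
    simp only [iw_pos, kq_mkr]
    have := tsum_hp 0
    simp only [add_zero] at this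
    rw [this, hp_zero]
  obtain ⟨e0, he0⟩ := exists_Tr hR0 hR01
  have hqs : ∀ σ y, Qs (qs σ) eL y ↔ Lc y ∧ strg y = σ := by
    intro σ y
    unfold Qs qs
    rw [← heL y, decide_eq_true_eq]
  have hql : ∀ n y, Qs (ql n) eL y ↔ Lc y ∧ (strg y).length = n := by
    intro n y
    unfold Qs ql
    rw [← heL y, decide_eq_true_eq]
  have hy' : ∀ n u, Un u → lv u = n → Lc (Nat.pair u (encode (sg B n))) := by
    intro n u hu hn
    refine ⟨hWL _ ⟨?_, ?_⟩, ?_⟩
    · simpa using hu
    · simp [hn]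
    · simp [hn, sg_length]
  refine ⟨eL, c + e + 1, ?_, ?_, ?_⟩
  · intro n h0
    have h1 : Un (mkU e0 (mkr n (n + 1) 0)) := Un_mkU ((he0 _).2 (by
      show mkr n (n + 1) 0 = _
      simp))
    have h2 := hy' n _ h1 (by simp [mkU])
    have h3 : Qs (ql n) eL (Nat.pair (mkU e0 (mkr n (n + 1) 0)) (encode (sg B n))) :=
      (hql _ _).2 ⟨h2, by simp [sg_length]⟩
    have h4 := (ENNReal.tsum_eq_zero.1 h0) (Nat.pair (mkU e0 (mkr n (n + 1) 0))
      (encode (sg B n)))
    rw [iw_pos h3] at h4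
    exact hp_ne_zero _ h4
  · intro n
    exact ne_top_of_le_ne_top hLct (wsum_mono fun y hy => ((hql n y).1 hy).1)
  · intro n
    unfold fn nu
    rw [← wsum_add]
    let f : ℕ → ℕ := fun y =>
      Nat.pair (mkU e (mkr (lv y.unpair.1) (ky y + c) y)) (encode (sg B n))
    have hkf : (fun y => ky y + (c + e + 1)) = fun y => ky (f y) := by
      funext y
      show ky y + (c + e + 1) = ky (Nat.pair _ _)
      rw [ky_pair]
      unfold mkU
      rw [kq_mkr, kq_mkr]
      ring
    rw [hkf]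
    refine wsum_inj (f := f) ?_ ?_
    · intro i j _ _ hij
      have h1 := congrArg (fun z : ℕ => tg (tg z.unpair.1).unpair.2) hij
      simpa [f, mkU] using h1
    · intro y hy
      rw [hql] at hy
      rw [hqs]
      refine ⟨hy' n _ (Un_mkU ((he _).2 ⟨?_, ?_, ?_⟩)) ?_, ?_⟩
      · rw [tg_mkr]; exact hy.1
      · rw [tg_mkr, lv_mkr]
      · rw [tg_mkr, kq_mkr]
      · unfold mkU
        rw [lv_mkr, lv_mkr, ← hy.1.2, hy.2]
      · exact strg_pair _ _

/-- Candidates for initial segments of `B`. -/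
def HasCand (B : ℕ → Bool) : Prop :=
  ∃ cnd : ℕ × List Bool → Bool, Computable cnd ∧
    (∀ n, ∃ s0, ∀ s ≥ s0, cnd (s, sg B n) = true) ∧
    (∀ h : ℕ → Bool, (∀ n N, ∃ s ≥ N, cnd (s, sg h n) = true) → h = B) ∧
    ∀ s σ τ, σ <+: τ → cnd (s, τ) = true → cnd (s, σ) = true

theorem separate (t : Finset (ℕ → Bool)) : ∃ n, ∀ h ∈ t, ∀ h' ∈ t, sg h n = sg h' n → h = h' := by
  classical
  have h1 : ∀ p : (ℕ → Bool) × (ℕ → Bool), ∃ d, p.1 ≠ p.2 → p.1 d ≠ p.2 d := by
    intro p
    by_cases hp : p.1 = p.2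
    · exact ⟨0, fun h => absurd hp h⟩
    · obtain ⟨d, hd⟩ := Function.ne_iff.1 hp
      exact ⟨d, fun _ => hd⟩
  choose d hd using h1
  refine ⟨(t ×ˢ t).sup (fun p => d p + 1), fun h hh h' hh' heq => ?_⟩
  by_contra hne
  have h2 : d (h, h') + 1 ≤ (t ×ˢ t).sup (fun p => d p + 1) :=
    Finset.le_sup (f := fun p => d p + 1) (Finset.mem_product.2 ⟨hh, hh'⟩)
  have h3 : (sg h ((t ×ˢ t).sup fun p => d p + 1))[d (h, h')]? =
      (sg h' ((t ×ˢ t).sup fun p => d p + 1))[d (h, h')]? := by rw [heq]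
  rw [sg_get h (by omega), sg_get h' (by omega)] at h3
  simp only [Option.some.injEq] at h3
  exact hd (h, h') hne h3

theorem sum_nu_le {e n : ℕ} {t : Finset (ℕ → Bool)}
    (ht : ∀ h ∈ t, ∀ h' ∈ t, sg h n = sg h' n → h = h') :
    ∑ h ∈ t, nu e (sg h n) ≤ fn e n := by
  classical
  unfold nu fn wsum
  rw [← Summable.tsum_finsetSum (fun _ _ => ENNReal.summable)]
  refine ENNReal.tsum_le_tsum fun y => ?_
  by_cases hc : ∃ h ∈ t, Qs (qs (sg h n)) e y
  · obtain ⟨h, hh, hq⟩ := hc
    have hs : strg y = sg h n := by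
      have := hq.2
      unfold qs at this
      simpa using this
    rw [Finset.sum_eq_single_of_mem h hh]
    · refine iw_mono fun _ => ⟨hq.1, ?_⟩
      unfold ql
      rw [hs, sg_length]
      simp
    · intro h' hh' hne
      refine iw_neg fun hq' => hne ?_
      have hs' : strg y = sg h' n := by
        have := hq'.2
        unfold qs at this
        simpa using this
      exact ht h' hh' h hh (hs'.symm.trans hs)
  · rw [Finset.sum_eq_zero]
    · exact zero_le
    · intro h hh
      exact iw_neg fun hq => hc ⟨h, hh, hq⟩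

theorem finite_heavy {e d : ℕ} (h0 : ∀ n, fn e n ≠ 0) (h1 : ∀ n, fn e n ≠ ⊤) :
    {h : ℕ → Bool | ∀ n, hp d * fn e n ≤ nu e (sg h n)}.Finite := by
  classical
  by_contra hinf
  obtain ⟨t, ht, hcard⟩ := Set.Infinite.exists_subset_card_eq hinf (2 ^ d + 1)
  obtain ⟨n, hn⟩ := separate t
  have h2 := sum_nu_le (e := e) hn
  have h3 : ((2 ^ d + 1 : ℕ) : ℝ≥0∞) * (hp d * fn e n) ≤ fn e n := by
    refine le_trans ?_ h2
    rw [← hcard, ← nsmul_eq_mul, ← Finset.sum_const]
    exact Finset.sum_le_sum fun h hh => ht hh n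
  have h4 : ((2 ^ d + 1 : ℕ) : ℝ≥0∞) * (hp d * fn e n) = fn e n + hp d * fn e n := by
    have := two_pow_mul_hp_self d
    calc ((2 ^ d + 1 : ℕ) : ℝ≥0∞) * (hp d * fn e n)
        = (((2 ^ d : ℕ) : ℝ≥0∞) * hp d) * fn e n + hp d * fn e n := by push_cast; ring
      _ = _ := by rw [this, one_mul]
  rw [h4] at h3
  have h5 : fn e n + hp d * fn e n ≤ fn e n + 0 := by rw [add_zero]; exact h3
  have h6 := (ENNReal.add_le_add_iff_left (h1 n)).1 h5
  have h7 : hp d * fn e n = 0 := le_antisymm h6 zero_le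
  rcases mul_eq_zero.1 h7 with h | h
  · exact hp_ne_zero _ h
  · exact h0 n h

theorem hasCand_of_CP {B : ℕ → Bool} (hCP : CP B) : HasCand B := by
  classical
  obtain ⟨e, d, h0, h1, h2⟩ := shares hCP
  -- the candidates without isolation
  let c0 : ℕ → List Bool → Bool := fun s σ =>
    decide (apn ky (ql σ.length) e s ≤ p2 (d + 1) * apn ky (qs σ) e s)
  have hc0 : Computable fun p : ℕ × List Bool => c0 p.1 p.2 := by
    refine cdecide (cp_le ?_ (cmul (Computable.const _) ?_))
    · refine c_apn (k := ky) (by fun_prop) (q := fun p : ℕ × List Bool => ql p.2.length)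
        (e := fun _ => e) (s := fun p => p.1) ?_ (by fun_prop) (by fun_prop)
      unfold ql
      exact cdecide (cp_eq (by fun_prop) (by fun_prop))
    · refine c_apn (k := ky) (by fun_prop) (q := fun p : ℕ × List Bool => qs p.2)
        (e := fun _ => e) (s := fun p => p.1) ?_ (by fun_prop) (by fun_prop)
      unfold qs
      exact cdecide (cp_eq (by fun_prop) (by fun_prop))
  have hc0s : ∀ s σ, c0 s σ = true ↔ (apn ky (ql σ.length) e s : ℝ≥0∞) * hp s ≤
      ((2 ^ (d + 1) : ℕ) : ℝ≥0∞) * ((apn ky (qs σ) e s : ℝ≥0∞) * hp s) := by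
    intro s σ
    show decide _ = true ↔ _
    rw [decide_eq_true_eq, ← mul_assoc]
    constructor
    · intro h
      have h3 : (apn ky (ql σ.length) e s : ℝ≥0∞) ≤
          ((p2 (d + 1) * apn ky (qs σ) e s : ℕ) : ℝ≥0∞) := by exact_mod_cast h
      calc (apn ky (ql σ.length) e s : ℝ≥0∞) * hp s
          ≤ ((p2 (d + 1) * apn ky (qs σ) e s : ℕ) : ℝ≥0∞) * hp s := by gcongr
        _ = _ := by unfold p2; push_cast; ring
    · intro h
      have h3 : (apn ky (ql σ.length) e s : ℝ≥0∞) ≤
          ((p2 (d + 1) * apn ky (qs σ) e s : ℕ) : ℝ≥0∞) := by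
        have h4 : (apn ky (ql σ.length) e s : ℝ≥0∞) * hp s ≤
            ((p2 (d + 1) * apn ky (qs σ) e s : ℕ) : ℝ≥0∞) * hp s := by
          refine h.trans (le_of_eq ?_)
          unfold p2; push_cast; ring
        exact (ENNReal.mul_le_mul_iff_left (hp_ne_zero s) (hp_ne_top s)).1 h4
      exact_mod_cast h3
  have hI : ∀ n, ∃ s0, ∀ s ≥ s0, c0 s (sg B n) = true := by
    intro n
    have h3 : hp (d + 1) * fn e n < nu e (sg B n) := by
      refine lt_of_lt_of_le ?_ (h2 n)
      rw [← hp_half d, add_mul]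
      exact ENNReal.lt_add_right (ENNReal.mul_ne_top (hp_ne_top _) (h1 n))
        (mul_ne_zero (hp_ne_zero _) (h0 n))
    obtain ⟨s0, hs0⟩ := lt_apn (k := ky) h3
    refine ⟨s0, fun s hs => ?_⟩
    rw [hc0s, sg_length]
    calc (apn ky (ql n) e s : ℝ≥0∞) * hp s ≤ fn e n := apn_le
      _ = ((2 ^ (d + 1) : ℕ) : ℝ≥0∞) * (hp (d + 1) * fn e n) := by
          rw [← mul_assoc, two_pow_mul_hp_self, one_mul]
      _ ≤ ((2 ^ (d + 1) : ℕ) : ℝ≥0∞) * ((apn ky (qs (sg B n)) e s : ℝ≥0∞) * hp s) :=
          mul_le_mul_of_nonneg_left (hs0 s hs).le zero_le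
  have hII : ∀ h : ℕ → Bool, (∀ n N, ∃ s ≥ N, c0 s (sg h n) = true) →
      h ∈ {h : ℕ → Bool | ∀ n, hp (d + 1) * fn e n ≤ nu e (sg h n)} := by
    intro h hh n
    have h3 : fn e n ≤ ((2 ^ (d + 1) : ℕ) : ℝ≥0∞) * nu e (sg h n) := by
      refine le_of_forall_lt fun c hc => ?_
      obtain ⟨s0, hs0⟩ := lt_apn (k := ky) hc
      obtain ⟨s, hs, h4⟩ := hh n s0
      rw [hc0s, sg_length] at h4
      refine lt_of_lt_of_le (hs0 s hs) (h4.trans ?_)
      gcongr
      exact apn_le
    calc hp (d + 1) * fn e n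
        ≤ hp (d + 1) * (((2 ^ (d + 1) : ℕ) : ℝ≥0∞) * nu e (sg h n)) := by gcongr
      _ = nu e (sg h n) := by
          rw [← mul_assoc, mul_comm (hp (d + 1)), two_pow_mul_hp_self, one_mul]
  have hfin := finite_heavy (d := d + 1) h0 h1
  obtain ⟨n0, hn0⟩ := separate (insert B hfin.toFinset)
  refine ⟨fun p => allB (fun m => c0 p.1 (p.2.take m)) (p.2.length + 1) &&
    (decide (p.2 <+: sg B n0) || decide (sg B n0 <+: p.2)), ?_, ?_, ?_, ?_⟩
  · refine cand ?_ (cor ?_ ?_)
    · refine c_allB (q := fun (p : ℕ × List Bool) m => c0 p.1 (p.2.take m)) ?_ (by fun_prop)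
      exact hc0.comp (g := fun p : (ℕ × List Bool) × ℕ => (p.1.1, p.1.2.take p.2))
        (by fun_prop)
    · exact c_prefix (l := fun p : ℕ × List Bool => p.2) (r := fun _ => sg B n0)
        (by fun_prop) (by fun_prop)
    · exact c_prefix (r := fun p : ℕ × List Bool => p.2) (l := fun _ => sg B n0)
        (by fun_prop) (by fun_prop)
  · intro n
    have h3 : ∃ s0, ∀ s ≥ s0, ∀ m < n + 1, c0 s (sg B m) = true := by
      induction n with
      | zero =>
        obtain ⟨s0, hs0⟩ := hI 0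
        refine ⟨s0, fun s hs m hm => ?_⟩
        have : m = 0 := by omega
        rw [this]; exact hs0 s hs
      | succ n ih =>
        obtain ⟨s1, hs1⟩ := ih
        obtain ⟨s2, hs2⟩ := hI (n + 1)
        refine ⟨max s1 s2, fun s hs m hm => ?_⟩
        rcases Nat.lt_succ_iff_lt_or_eq.1 hm with h | rfl
        · exact hs1 s (by omega) m h
        · exact hs2 s (by omega)
    obtain ⟨s0, hs0⟩ := h3
    refine ⟨s0, fun s hs => ?_⟩
    rw [Bool.and_eq_true]
    constructor
    · rw [allB_iff]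
      intro m hm
      simp only [sg_length] at hm
      show c0 s ((sg B n).take m) = true
      rw [sg_take B (by omega)]
      exact hs0 s hs m hm
    · rw [Bool.or_eq_true, decide_eq_true_eq, decide_eq_true_eq]
      rcases le_total n n0 with h | h
      · exact Or.inl (sg_mono B h)
      · exact Or.inr (sg_mono B h)
  · intro h hh
    have h3 : h ∈ {h : ℕ → Bool | ∀ n, hp (d + 1) * fn e n ≤ nu e (sg h n)} := by
      refine hII h fun n N => ?_
      obtain ⟨s, hs, h4⟩ := hh n N
      refine ⟨s, hs, ?_⟩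
      rw [Bool.and_eq_true, allB_iff] at h4
      have h5 := h4.1 n (by simp [sg_length])
      simpa [sg_take h le_rfl] using h5
    have h4 : sg h n0 = sg B n0 := by
      obtain ⟨s, _, h4⟩ := hh n0 0
      rw [Bool.and_eq_true, Bool.or_eq_true, decide_eq_true_eq, decide_eq_true_eq] at h4
      rcases h4.2 with h5 | h5
      · exact h5.eq_of_length (by simp [sg_length])
      · exact (h5.eq_of_length (by simp [sg_length])).symm
    exact hn0 h (Finset.mem_insert_of_mem (hfin.mem_toFinset.2 h3)) B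
      (Finset.mem_insert_self _ _) h4
  · intro s σ τ hστ hτ
    rw [Bool.and_eq_true, allB_iff, Bool.or_eq_true, decide_eq_true_eq,
      decide_eq_true_eq] at hτ ⊢
    obtain ⟨h3, h4⟩ := hτ
    have hl := hστ.length_le
    constructor
    · intro m hm
      have hm' : m < σ.length + 1 := hm
      have h5 := h3 m (show m < τ.length + 1 by omega)
      have h6 : τ.take m = σ.take m := by
        obtain ⟨r, rfl⟩ := hστ
        exact List.take_append_of_le_length (by omega)
      simp only at h5 ⊢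
      rw [h6] at h5
      exact h5
    · rcases h4 with h4 | h4
      · exact Or.inl (hστ.trans h4)
      · exact List.prefix_or_prefix_of_prefix hστ h4

end Pool.Agent.H587R2.IPC
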