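import Pool.Agent.H587R2.IPC.Hungry

/-!
If the covering property fails for `B` then there is a class as wanted (of positive measure).
-/

namespace Pool.Agent.H587R2.IPC

open Pool.Agent.Helper446 Pool.Agent.Helper446.RE Pool.Agent.Helper446.Oracle
open Pool.Agent.H587R2.NCE
open Encodable MeasureTheory
open scoped ENNReal

/-- There is a `Π⁰₁(B)` class as wanted. -/
def Good (B : ℕ → Bool) : Prop :=
  ∃ g : List Bool × List Bool → Bool, Computable g ∧
    (∃ X : ℕ → Bool, ∀ n, g (sg X n, sg B n) = true) ∧
    ∀ X : ℕ → Bool, (∀ n, g (sg X n, sg B n) = true) → ¬ R X B ∧ ¬ R B X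

/-- First reason to be outside. -/
def bad1 (w : ℕ) (k : ℕ → ℕ) (e t : ℕ) (σ η : List Bool) : Bool :=
  ((ea w k e t).elim false fun p => decide (p.1 <+: η)) && decide (str t <+: σ)

/-- Second reason to be outside. -/
def bad2 (i : ℕ) (σ η : List Bool) : Bool :=
  decide (i + 3 ≤ (F i η).length) && decide ((F i η).take (i + 3) <+: σ)

/-- The tree. -/
def gt1 (w : ℕ) (k : ℕ → ℕ) (x : List Bool × List Bool) : Bool :=
  !(exB (fun e => exB (fun t => bad1 w k e t x.1 x.2) x.1.length) x.1.length) &&
    !(exB (fun i => bad2 i x.1 x.2) x.1.length)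

/-- First open set to be removed. -/
def U (w : ℕ) (k : ℕ → ℕ) (B : ℕ → Bool) (e : ℕ) : Set (ℕ → Bool) :=
  {X | ∃ t η y, ea w k e t = some (η, y) ∧ η = sg B η.length ∧ X ∈ cyl (str t)}

/-- Second open set to be removed. -/
def D (B : ℕ → Bool) (i : ℕ) : Set (ℕ → Bool) :=
  {X | ∃ m, i + 3 ≤ (F i (sg B m)).length ∧ X ∈ cyl ((F i (sg B m)).take (i + 3))}

theorem bad1_iff {w : ℕ} {k : ℕ → ℕ} {e t : ℕ} {σ η : List Bool} :
    bad1 w k e t σ η = true ↔ (∃ η' y, ea w k e t = some (η', y) ∧ η' <+: η) ∧
      str t <+: σ := by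
  unfold bad1
  rw [Bool.and_eq_true, decide_eq_true_eq]
  rcases ea w k e t with _ | ⟨η', y⟩
  · simp
  · simp

theorem gt1_iff {w : ℕ} {k : ℕ → ℕ} {B X : ℕ → Bool} :
    (∀ n, gt1 w k (sg X n, sg B n) = true) ↔ (∀ e, X ∉ U w k B e) ∧ ∀ i, X ∉ D B i := by
  constructor
  · intro h
    constructor
    · rintro e ⟨t, η, y, h1, h2, h3⟩
      have h4 := h (max (max (e + 1) (t + 1)) (max η.length (str t).length))
      set n := max (max (e + 1) (t + 1)) (max η.length (str t).length) with hn
      unfold gt1 at h4
      rw [Bool.and_eq_true, Bool.not_eq_true', Bool.not_eq_true'] at h4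
      have h5 : exB (fun e => exB (fun t => bad1 w k e t (sg X n) (sg B n))
          (sg X n).length) (sg X n).length = true := by
        rw [exB_iff]
        refine ⟨e, by rw [sg_length]; omega, ?_⟩
        rw [exB_iff]
        refine ⟨t, by rw [sg_length]; omega, ?_⟩
        rw [bad1_iff]
        refine ⟨⟨η, y, h1, ?_⟩, ?_⟩
        · rw [prefix_sg_iff (by omega)]; exact h2
        · rw [← mem_cyl_iff (by omega)]; exact h3
      rw [h5] at h4
      exact absurd h4.1 (by simp)
    · rintro i ⟨m, h1, h2⟩
      have h4 := h (max m (i + 3))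
      set n := max m (i + 3) with hn
      unfold gt1 at h4
      rw [Bool.and_eq_true, Bool.not_eq_true', Bool.not_eq_true'] at h4
      have h6 : F i (sg B m) <+: F i (sg B n) := F_mono i (sg_mono B (by omega))
      have h7 : (F i (sg B n)).take (i + 3) = (F i (sg B m)).take (i + 3) := by
        obtain ⟨r, hr⟩ := h6
        rw [← hr, List.take_append_of_le_length h1]
      have h5 : exB (fun i => bad2 i (sg X n) (sg B n)) (sg X n).length = true := by
        rw [exB_iff]
        refine ⟨i, by rw [sg_length]; omega, ?_⟩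
        unfold bad2
        rw [Bool.and_eq_true, decide_eq_true_eq, decide_eq_true_eq]
        refine ⟨h1.trans h6.length_le, ?_⟩
        rw [h7, ← mem_cyl_iff (by rw [List.length_take]; omega)]
        exact h2
      rw [h5] at h4
      exact absurd h4.2 (by simp)
  · rintro ⟨h1, h2⟩ n
    unfold gt1
    rw [Bool.and_eq_true, Bool.not_eq_true', Bool.not_eq_true']
    constructor
    · rw [← Bool.not_eq_true, exB_iff]
      rintro ⟨e, he, h3⟩
      rw [exB_iff] at h3
      obtain ⟨t, ht, h4⟩ := h3
      rw [bad1_iff] at h4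
      obtain ⟨⟨η, y, h5, h6⟩, h7⟩ := h4
      apply h1 e
      have hl : η.length ≤ n := by
        have := h6.length_le
        rwa [sg_length] at this
      have hl' : (str t).length ≤ n := by
        have := h7.length_le
        rwa [sg_length] at this
      exact ⟨t, η, y, h5, (prefix_sg_iff hl).1 h6, (mem_cyl_iff hl').2 h7⟩
    · rw [← Bool.not_eq_true, exB_iff]
      rintro ⟨i, hi, h3⟩
      unfold bad2 at h3
      rw [Bool.and_eq_true, decide_eq_true_eq, decide_eq_true_eq] at h3
      apply h2 i
      refine ⟨n, h3.1, (mem_cyl_iff ?_).2 h3.2⟩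
      have := h3.2.length_le
      rwa [sg_length] at this

theorem c_gt1 {w : ℕ} {k : ℕ → ℕ} (hk : Computable k) : Computable (gt1 w k) := by
  unfold gt1
  refine cand (cnot ?_) (cnot ?_)
  · refine c_exB (q := fun (x : List Bool × List Bool) e =>
      exB (fun t => bad1 w k e t x.1 x.2) x.1.length) ?_ (by fun_prop)
    refine c_exB (q := fun (p : (List Bool × List Bool) × ℕ) t =>
      bad1 w k p.2 t p.1.1 p.1.2) ?_ (by fun_prop)
    unfold bad1
    have he : Computable fun p : ((List Bool × List Bool) × ℕ) × ℕ => ea w k p.1.2 p.2 :=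
      c_ea hk (e := fun p : ((List Bool × List Bool) × ℕ) × ℕ => p.1.2)
        (t := fun p => p.2) (by fun_prop) (by fun_prop)
    refine cand (c_elim he (Computable.const false) ?_) ?_
    · exact c_prefix (l := fun q : (((List Bool × List Bool) × ℕ) × ℕ) × (List Bool × ℕ) =>
        q.2.1) (r := fun q => q.1.1.1.2) (by fun_prop) (by fun_prop)
    · exact c_prefix (l := fun p : ((List Bool × List Bool) × ℕ) × ℕ => str p.2)
        (r := fun p => p.1.1.1) (c_str (by fun_prop)) (by fun_prop)
  · refine c_exB (q := fun (x : List Bool × List Bool) i => bad2 i x.1 x.2) ?_ (by fun_prop)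
    unfold bad2
    have hF : Computable fun p : (List Bool × List Bool) × ℕ => F p.2 p.1.2 :=
      c_F (e := fun p : (List Bool × List Bool) × ℕ => p.2) (ζ := fun p => p.1.2)
        (by fun_prop) (by fun_prop)
    refine cand (cdecide (cp_le (by fun_prop) (clength hF))) ?_
    exact c_prefix (l := fun p : (List Bool × List Bool) × ℕ => (F p.2 p.1.2).take (p.2 + 3))
      (r := fun p => p.1.1) (c_take (by fun_prop) hF) (by fun_prop)

theorem mu_D (B : ℕ → Bool) (i : ℕ) : mu (D B i) ≤ hp (i + 3) := by
  by_cases h : ∃ m, i + 3 ≤ (F i (sg B m)).length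
  · obtain ⟨m, hm⟩ := h
    have hsub : D B i ⊆ cyl ((F i (sg B m)).take (i + 3)) := by
      rintro X ⟨m', hm', hX⟩
      have h1 : ∀ m m', m ≤ m' → i + 3 ≤ (F i (sg B m)).length →
          (F i (sg B m')).take (i + 3) = (F i (sg B m)).take (i + 3) := by
        intro m m' hmm h
        obtain ⟨r, hr⟩ := F_mono i (sg_mono B hmm)
        rw [← hr, List.take_append_of_le_length h]
      rcases le_total m m' with h2 | h2
      · rw [h1 m m' h2 hm] at hX; exact hX
      · rw [← h1 m' m h2 hm'] at hX; exact hX
    refine (measure_mono hsub).trans ?_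
    rw [mu_cyl, List.length_take, min_eq_left hm]
  · have : D B i = ∅ := by
      rw [Set.eq_empty_iff_forall_notMem]
      rintro X ⟨m, hm, _⟩
      exact h ⟨m, hm⟩
    rw [this, measure_empty]
    exact zero_le

theorem mu_U {w : ℕ} {k : ℕ → ℕ} {B : ℕ → Bool} {W : ℕ → Prop}
    (hw : ∀ y, (∃ n, ax w B n y true = true) ↔ W y) (hW : wsum k W ≤ 1) (e : ℕ) :
    mu (U w k B e) ≤ hp (e + 3) := by
  classical
  have h0 : ∀ y, ∃ n, W y → Fst w B y n := by
    intro y
    by_cases hy : W y
    · obtain ⟨n, hn⟩ := exists_Fst ((hw y).2 hy)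
      exact ⟨n, fun _ => hn⟩
    · exact ⟨0, fun h => absurd h hy⟩
  choose ny hny using h0
  let C : ℕ → Set (ℕ → Bool) := fun t =>
    {X | ∃ η y, ea w k e t = some (η, y) ∧ η = sg B η.length ∧ X ∈ cyl (str t)}
  have hUC : U w k B e ⊆ ⋃ t, C t := by
    rintro X ⟨t, h⟩
    exact Set.mem_iUnion.2 ⟨t, h⟩
  calc mu (U w k B e) ≤ mu (⋃ t, C t) := measure_mono hUC
    _ ≤ ∑' t, mu (C t) := measure_iUnion_le _
    _ ≤ ∑' t, ∑' y, iw (W y) (iw (ea w k e t = some (sg B (ny y), y))
          (hp (str t).length)) := by
        refine ENNReal.tsum_le_tsum fun t => ?_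
        by_cases hc : ∃ η y, ea w k e t = some (η, y) ∧ η = sg B η.length
        · obtain ⟨η, y, h1, h2⟩ := hc
          obtain ⟨_, _, h3, _, _⟩ := ea_some h1
          have h4 : Fst w B y η.length := h3.congr fun i hi => by rw [h2, xt_sg hi]
          have h5 : W y := (hw y).1 ⟨_, h4.1⟩
          have h6 : η.length = ny y := h4.unique (hny y h5)
          have h7 : ea w k e t = some (sg B (ny y), y) := by
            rw [← h6, ← h2]; exact h1
          refine le_trans ?_ (ENNReal.le_tsum y)
          rw [iw_pos h5, iw_pos h7, ← mu_cyl]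
          refine measure_mono ?_
          rintro X ⟨_, _, _, _, h8⟩
          exact h8
        · have : C t = ∅ := by
            rw [Set.eq_empty_iff_forall_notMem]
            rintro X ⟨η, y, h1, h2, _⟩
            exact hc ⟨η, y, h1, h2⟩
          rw [this, measure_empty]
          exact zero_le
    _ = ∑' y, ∑' t, iw (W y) (iw (ea w k e t = some (sg B (ny y), y))
          (hp (str t).length)) := ENNReal.tsum_comm
    _ ≤ ∑' y, iw (W y) (hp (e + 3) * hp (k y)) := by
        refine ENNReal.tsum_le_tsum fun y => ?_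
        by_cases hy : W y
        · simp only [iw_pos hy]
          rw [← hp_add]
          exact tsum_ea_le _ _
        · simp only [iw_neg hy, tsum_zero]
          exact zero_le
    _ = hp (e + 3) * wsum k W := by
        unfold wsum
        rw [← ENNReal.tsum_mul_left]
        exact tsum_congr fun y => iw_mul
    _ ≤ hp (e + 3) * 1 := by gcongr
    _ = hp (e + 3) := mul_one _

theorem good_of_not_CP {B : ℕ → Bool} (h : ¬ CP B) : Good B := by
  unfold CP at h
  push Not at h
  obtain ⟨k, hk, W, hW, hsum, hno⟩ := h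
  obtain ⟨w, hw⟩ := exists_index (X := B) (S := fun p : ℕ × Bool => W p.1 ∧ p.2 = true)
    (REIn.and (hW.comp (by fun_prop)) (REIn.of_re (RE.eq (by fun_prop) (by fun_prop))))
  have hw' : ∀ y, (∃ n, ax w B n y true = true) ↔ W y := by
    intro y
    rw [hw y true]
    simp
  refine ⟨gt1 w k, c_gt1 hk, ?_, ?_⟩
  · have hm : mu ((⋃ e, U w k B e) ∪ ⋃ i, D B i) ≤ hp 1 := by
      calc mu ((⋃ e, U w k B e) ∪ ⋃ i, D B i)
          ≤ mu (⋃ e, U w k B e) + mu (⋃ i, D B i) := measure_union_le _ _
        _ ≤ (∑' e, mu (U w k B e)) + ∑' i, mu (D B i) :=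
            add_le_add (measure_iUnion_le _) (measure_iUnion_le _)
        _ ≤ (∑' e, hp (e + 3)) + ∑' i, hp (i + 3) :=
            add_le_add (ENNReal.tsum_le_tsum fun e => mu_U hw' hsum e)
              (ENNReal.tsum_le_tsum fun i => mu_D B i)
        _ = hp 2 + hp 2 := by rw [tsum_hp 2]
        _ = hp 1 := hp_half 1
    have hne : ((⋃ e, U w k B e) ∪ ⋃ i, D B i) ≠ Set.univ := by
      intro heq
      rw [heq, measure_univ] at hm
      have : hp 1 < 1 := by
        unfold hp
        rw [pow_one]
        exact ENNReal.inv_lt_one.2 (by norm_num)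
      exact absurd hm (not_le.2 this)
    obtain ⟨X, hX⟩ := (Set.ne_univ_iff_exists_notMem _).1 hne
    refine ⟨X, gt1_iff.2 ⟨fun e he => hX (Or.inl (Set.mem_iUnion.2 ⟨e, he⟩)),
      fun i hi => hX (Or.inr (Set.mem_iUnion.2 ⟨i, hi⟩))⟩⟩
  · intro X hX
    rw [gt1_iff] at hX
    obtain ⟨hU, hD⟩ := hX
    constructor
    · intro hR
      obtain ⟨i, hi⟩ := exists_Cmp hR
      obtain ⟨m, hm⟩ := hi (i + 3)
      apply hD i
      have hl : i + 3 ≤ (F i (sg B m)).length := by
        have := hm.length_le
        rwa [sg_length] at this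
      refine ⟨m, hl, ?_⟩
      rw [mem_cyl, List.length_take, min_eq_left hl]
      rw [List.prefix_iff_eq_take, sg_length] at hm
      exact hm.symm
    · intro hR
      obtain ⟨e, he⟩ := exists_Cmp hR
      by_cases hc : ∃ t, (ea w k e t).isSome = true ∧ X ∈ cyl (str t)
      · obtain ⟨t, ht, hXt⟩ := hc
        obtain ⟨⟨η, y⟩, hη⟩ := Option.isSome_iff_exists.1 ht
        apply hU e
        refine ⟨t, η, y, hη, ?_, hXt⟩
        obtain ⟨_, h1, _⟩ := ea_some hη
        rw [mem_cyl] at hXt
        have h2 := Cmp_eq he (str t).length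
        rw [← hXt] at h2
        rw [h2] at h1
        have hl : η.length ≤ (F e (str t)).length := by
          have := h1.length_le
          rwa [sg_length] at this
        exact (prefix_sg_iff hl).1 h1
      · push Not at hc
        apply wsum_Le (w := w) (k := k) (e := e)
        refine hno (Le w k e) (re_Le hk e) fun y hy => ?_
        by_contra hLe
        obtain ⟨n, hn⟩ := exists_Fst ((hw' y).2 hy)
        obtain ⟨m, hm⟩ := he n
        set ℓ := max (max m (y + 1)) (e + 3 + k y + 1) with hℓ
        set t := pos (sg X ℓ) with ht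
        have hst : str t = sg X ℓ := str_pos _
        have hlen : (str t).length = ℓ := by rw [hst, sg_length]
        have hXt : X ∈ cyl (str t) := by rw [mem_cyl, hlen, hst]
        have hFm : sg B n <+: F e (str t) := by
          rw [hst]
          exact hm.trans (F_mono e (sg_mono X (by omega)))
        have hnl : n ≤ (F e (str t)).length := by
          have := hFm.length_le
          rwa [sg_length] at this
        have htk : (F e (str t)).take n = sg B n := by
          rw [List.prefix_iff_eq_take, sg_length] at hFm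
          exact hFm.symm
        have hsome : (ea w k e t).isSome = true := by
          refine ea_ne_none (y := y) (n := n) ?_ (by rw [hlen]; omega) ?_ hnl
            (by rw [hlen]; omega) ?_
          · intro r hr hs hp
            apply hc r hs
            rw [hst] at hp
            have hl : (str r).length ≤ ℓ := by
              have := hp.length_le
              rwa [sg_length] at this
            exact (mem_cyl_iff hl).2 hp
          · refine hn.congr fun i hi => ?_
            have h1 := prefix_xt hFm (i := i) (by rw [sg_length]; exact hi)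
            rw [← h1, xt_sg hi]
          · rw [htk]
            have h1 := not_Le hLe (sg B n) t
            rw [hlen] at h1 ⊢
            have h2 : ℓ = (ℓ - (e + 3 + k y + 1)) + (e + 3 + k y + 1) := by omega
            have h3 : 2 ^ ℓ = 2 ^ (ℓ - (e + 3 + k y + 1)) * 2 ^ (e + 3 + k y + 1) := by
              rw [← pow_add, ← h2]
            rw [h3] at h1
            have h4 : am w k e (sg B n) y ℓ t < 2 ^ (ℓ - (e + 3 + k y + 1)) :=
              lt_of_mul_lt_mul_right h1 (Nat.zero_le _)
            have h5 : 2 ^ (ℓ - (e + 3 + k y)) = 2 ^ (ℓ - (e + 3 + k y + 1)) * 2 := by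
              rw [← pow_succ]
              congr 1
              omega
            have h6 : 0 < 2 ^ (ℓ - (e + 3 + k y + 1)) := by positivity
            omega
        exact hc t hsome hXt

end Pool.Agent.H587R2.IPC
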