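import Pool.Agent.H587R2.IPC.Trace

/-!
The finite injury construction for oracles with the covering property.
-/

namespace Pool.Agent.H587R2.IPC

open Pool.Agent.Helper446 Pool.Agent.Helper446.RE Pool.Agent.Helper446.Oracle
open Pool.Agent.H587R2.NCE
open Encodable

/-- All strings of length `n`. -/
def allS : ℕ → List (List Bool)
  | 0 => [[]]
  | n + 1 => (allS n).flatMap fun v => [v ++ [false], v ++ [true]]

theorem mem_allS {n : ℕ} {v : List Bool} : v ∈ allS n ↔ v.length = n := by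
  induction n generalizing v with
  | zero => simp [allS]
  | succ n ih =>
    simp only [allS, List.mem_flatMap, ih, List.mem_cons, List.not_mem_nil, or_false]
    constructor
    · rintro ⟨u, hu, rfl | rfl⟩ <;> simp [hu]
    · intro h
      have hne : v ≠ [] := by rintro rfl; simp at h
      refine ⟨v.dropLast, by simp [h], ?_⟩
      have h1 := List.dropLast_append_getLast hne
      cases hb : v.getLast hne
      · left; rw [hb] at h1; exact h1.symm
      · right; rw [hb] at h1; exact h1.symm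

section comp
variable {α β γ : Type*} [Primcodable α] [Primcodable β] [Primcodable γ]

theorem c_flatMap {l : α → List β} {f : α → β → List γ} (hl : Computable l)
    (hf : Computable fun p : α × β => f p.1 p.2) : Computable fun a => (l a).flatMap (f a) := by
  have h := RE.list_foldl (f := l) (g := fun _ : α => ([] : List γ))
    (h := fun (a : α) (s : List γ × β) => s.1 ++ f a s.2) hl (Computable.const [])
    (show Computable fun p : α × (List γ × β) => p.2.1 ++ f p.1 p.2.2 by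
      have h1 := hf.comp (g := fun p : α × (List γ × β) => (p.1, p.2.2)) (by fun_prop)
      exact cappend (by fun_prop) h1)
  refine h.of_eq fun a => ?_
  rw [List.flatMap_eq_foldl]

theorem c_allS {n : α → ℕ} (hn : Computable n) : Computable fun a => allS (n a) := by
  have h1 : Computable fun x : α × (ℕ × List (List Bool)) =>
      x.2.2.flatMap fun v => [v ++ [false], v ++ [true]] := by
    refine c_flatMap (l := fun x : α × (ℕ × List (List Bool)) => x.2.2)
      (f := fun _ v => [v ++ [false], v ++ [true]]) (by fun_prop) ?_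
    fun_prop
  have h := Computable.nat_rec (f := n) (g := fun _ : α => ([[]] : List (List Bool)))
    (h := fun (_ : α) (y : ℕ × List (List Bool)) =>
      y.2.flatMap fun v => [v ++ [false], v ++ [true]]) hn (Computable.const _) h1
  refine h.of_eq fun a => ?_
  generalize n a = k
  induction k with
  | zero => rfl
  | succ k ih => simp only [allS]; rw [← ih]

end comp

/-- Data for the construction. -/
structure Dat (B : ℕ → Bool) where
  /-- length of blocks -/
  m : ℕ → ℕ → ℕ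
  /-- admitted blocks -/
  dl : ℕ → ℕ → ℕ → List (List Bool)
  /-- candidates -/
  cnd : ℕ → List Bool → Bool
  c_m : Computable fun p : ℕ × ℕ => m p.1 p.2
  c_dl : Computable fun p : (ℕ × ℕ) × ℕ => dl p.1.1 p.1.2 p.2
  c_cnd : Computable fun p : ℕ × List Bool => cnd p.1 p.2
  m_pos : ∀ i p, 0 < m i p
  dl_len : ∀ {i p s v}, v ∈ dl i p s → v.length = m i p
  dl_anti : ∀ {i p s v}, v ∈ dl i p (s + 1) → v ∈ dl i p s
  dl_ne : ∀ i p s, ∃ v, v ∈ dl i p s
  dl_avoid : ∀ {i p X}, Cmp i B X → ∃ s, blk p (m i p) (sg X (p + m i p)) ∉ dl i p s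
  cnd_lim : ∀ n, ∃ s0, ∀ s ≥ s0, cnd s (sg B n) = true
  cnd_eq : ∀ h : ℕ → Bool, (∀ n N, ∃ s ≥ N, cnd s (sg h n) = true) → h = B
  cnd_pre : ∀ {s σ τ}, σ <+: τ → cnd s τ = true → cnd s σ = true

theorem exists_Dat {B : ℕ → Bool} (hCP : CP B) : Nonempty (Dat B) := by
  obtain ⟨cnd, h1, h2, h3, h4⟩ := hasCand_of_CP hCP
  obtain ⟨c, eT, h5, h6⟩ := trace hCP
  have hcode : Computable fun p : ((ℕ × ℕ) × ℕ) × List Bool =>
      wst ℕ eT p.1.2 (tcode c p.1.1.1 p.1.1.2 p.2) := by
    refine wst_comp.comp (f := fun p : (ℕ × ℕ) × ℕ => wst ℕ p.1.1 p.1.2 p.2)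
      (g := fun p : ((ℕ × ℕ) × ℕ) × List Bool =>
        ((eT, p.1.2), tcode c p.1.1.1 p.1.1.2 p.2)) ?_
    unfold tcode
    fun_prop
  have hdl : ∀ i p s v, v ∈ ((allS (bl c i p)).flatMap fun v =>
      bif wst ℕ eT s (tcode c i p v) then [] else [v]) ↔
      v.length = bl c i p ∧ wst ℕ eT s (tcode c i p v) = false := by
    intro i p s v
    rw [List.mem_flatMap]
    constructor
    · rintro ⟨u, hu, hv⟩
      cases hw : wst ℕ eT s (tcode c i p u)
      · rw [hw, cond_false, List.mem_singleton] at hv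
        rw [hv]
        exact ⟨mem_allS.1 hu, hw⟩
      · rw [hw, cond_true] at hv; cases hv
    · rintro ⟨h7, h8⟩
      refine ⟨v, mem_allS.2 h7, ?_⟩
      rw [h8, cond_false]
      exact List.mem_singleton.2 rfl
  refine ⟨{
    m := fun i p => bl c i p
    dl := fun i p s => (allS (bl c i p)).flatMap fun v =>
      bif wst ℕ eT s (tcode c i p v) then [] else [v]
    cnd := fun s σ => cnd (s, σ)
    c_m := by unfold bl; fun_prop
    c_dl := ?_
    c_cnd := h1
    m_pos := fun i p => by unfold bl; omega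
    dl_len := fun h => ((hdl _ _ _ _).1 h).1
    dl_anti := fun h => ?_
    dl_ne := fun i p s => ?_
    dl_avoid := fun {i p X} h => ?_
    cnd_lim := h2
    cnd_eq := h3
    cnd_pre := fun {s σ τ} h h' => h4 s σ τ h h' }⟩
  · refine c_flatMap (l := fun p : (ℕ × ℕ) × ℕ => allS (bl c p.1.1 p.1.2))
      (f := fun p v => bif wst ℕ eT p.2 (tcode c p.1.1 p.1.2 v) then [] else [v])
      (c_allS (by unfold bl; fun_prop)) ?_
    exact ccond hcode (Computable.const []) (by fun_prop)
  · rw [hdl] at h ⊢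
    refine ⟨h.1, ?_⟩
    rw [← Bool.not_eq_true]
    intro hc
    have := wst_mono (Nat.le_succ _) hc
    rw [h.2] at this
    cases this
  · obtain ⟨v, hv, hv'⟩ := h5 i p
    exact ⟨v, (hdl _ _ _ _).2 ⟨hv, hv' s⟩⟩
  · obtain ⟨M, hM⟩ := h (p + bl c i p)
    have hl : p + bl c i p ≤ (F i (sg B M)).length := by
      have := hM.length_le
      rwa [sg_length] at this
    obtain ⟨s, hs⟩ := h6 i p M hl
    refine ⟨s, fun hmem => ?_⟩
    rw [hdl] at hmem
    rw [← blk_prefix hM (by rw [sg_length])] at hmem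
    rw [hmem.2] at hs
    cases hs

variable {B : ℕ → Bool} (𝒟 : Dat B)

/-- Branches through the first `j` chunks and blocks. -/
def Bn (c : ℕ → List Bool) (s : ℕ) : ℕ → List (List Bool)
  | 0 => [[]]
  | j + 1 => (Bn c s j).flatMap fun ζ =>
      (𝒟.dl j (ζ.length + (c j).length) s).flatMap fun d => [ζ ++ (c j ++ d)]

/-- Position of the `j`-th chunk. -/
def ps (c : ℕ → List Bool) : ℕ → ℕ
  | 0 => 0
  | j + 1 => ps c j + (c j).length + 𝒟.m j (ps c j + (c j).length)

variable {𝒟}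

theorem Bn_len {c : ℕ → List Bool} {s j : ℕ} {ζ : List Bool} (h : ζ ∈ Bn 𝒟 c s j) :
    ζ.length = ps 𝒟 c j := by
  induction j generalizing ζ with
  | zero =>
    simp only [Bn, List.mem_singleton] at h
    rw [h]; rfl
  | succ j ih =>
    simp only [Bn, List.mem_flatMap, List.mem_singleton] at h
    obtain ⟨ξ, hξ, d, hd, rfl⟩ := h
    have h1 := 𝒟.dl_len hd
    rw [ih hξ] at h1
    rw [List.length_append, List.length_append, ih hξ, h1]
    simp only [ps]
    ring

theorem mem_Bn_succ {c : ℕ → List Bool} {s j : ℕ} {ξ : List Bool} :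
    ξ ∈ Bn 𝒟 c s (j + 1) ↔ ∃ ζ ∈ Bn 𝒟 c s j, ∃ d ∈ 𝒟.dl j (ps 𝒟 c j + (c j).length) s,
      ξ = ζ ++ (c j ++ d) := by
  simp only [Bn, List.mem_flatMap, List.mem_singleton]
  constructor
  · rintro ⟨ζ, hζ, d, hd, rfl⟩
    rw [Bn_len hζ] at hd
    exact ⟨ζ, hζ, d, hd, rfl⟩
  · rintro ⟨ζ, hζ, d, hd, rfl⟩
    rw [← Bn_len hζ] at hd
    exact ⟨ζ, hζ, d, hd, rfl⟩

theorem ps_congr {c c' : ℕ → List Bool} {j : ℕ} (h : ∀ i < j, c i = c' i) :
    ps 𝒟 c j = ps 𝒟 c' j := by
  induction j with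
  | zero => rfl
  | succ j ih =>
    simp only [ps]
    rw [ih fun i hi => h i (by omega), h j (by omega)]

theorem Bn_congr {c c' : ℕ → List Bool} {s j : ℕ} (h : ∀ i < j, c i = c' i) :
    Bn 𝒟 c s j = Bn 𝒟 c' s j := by
  induction j with
  | zero => rfl
  | succ j ih =>
    simp only [Bn]
    rw [ih fun i hi => h i (by omega), h j (by omega)]

theorem Bn_anti {c : ℕ → List Bool} {s t j : ℕ} (hst : s ≤ t) {ξ : List Bool}
    (h : ξ ∈ Bn 𝒟 c t j) : ξ ∈ Bn 𝒟 c s j := by
  induction hst with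
  | refl => exact h
  | step hst ih =>
    refine ih ?_
    clear ih
    rename_i t
    induction j generalizing ξ with
    | zero => exact h
    | succ j ih =>
      rw [mem_Bn_succ] at h ⊢
      obtain ⟨ζ, hζ, d, hd, rfl⟩ := h
      exact ⟨ζ, ih hζ, d, 𝒟.dl_anti hd, rfl⟩

theorem ps_mono_succ (c : ℕ → List Bool) (j : ℕ) :
    ps 𝒟 c j + (c j).length < ps 𝒟 c (j + 1) := by
  simp only [ps]
  have := 𝒟.m_pos j (ps 𝒟 c j + (c j).length)
  omega

theorem ps_mono (c : ℕ → List Bool) {i j : ℕ} (h : i ≤ j) : ps 𝒟 c i ≤ ps 𝒟 c j := by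
  induction h with
  | refl => exact le_rfl
  | step h ih =>
    rename_i k
    have h1 := ps_mono_succ (𝒟 := 𝒟) c k
    have h2 : ps 𝒟 c (k + 1) = ps 𝒟 c k.succ := rfl
    omega

theorem Bn_take {c : ℕ → List Bool} {s i j : ℕ} (hij : i ≤ j) {ξ : List Bool}
    (h : ξ ∈ Bn 𝒟 c s j) : ξ.take (ps 𝒟 c i) ∈ Bn 𝒟 c s i := by
  induction hij generalizing ξ with
  | refl =>
    rw [← Bn_len h, List.take_length]; exact h
  | step hij ih =>
    rw [mem_Bn_succ] at h
    obtain ⟨ζ, hζ, d, hd, rfl⟩ := h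
    rw [List.take_append_of_le_length]
    · exact ih hζ
    · rw [Bn_len hζ]; exact ps_mono c hij

/-- Decomposition of a branch at the `i`-th chunk. -/
theorem Bn_decomp {c : ℕ → List Bool} {s i j : ℕ} (hij : i < j) {ξ : List Bool}
    (h : ξ ∈ Bn 𝒟 c s j) : ∃ d ∈ 𝒟.dl i (ps 𝒟 c i + (c i).length) s,
      ξ.take (ps 𝒟 c i) ∈ Bn 𝒟 c s i ∧
      ξ.take (ps 𝒟 c (i + 1)) = ξ.take (ps 𝒟 c i) ++ (c i ++ d) ∧
      ξ.take (ps 𝒟 c i + (c i).length) = ξ.take (ps 𝒟 c i) ++ c i := by
  have h1 := Bn_take (i := i + 1) (by omega) h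
  obtain ⟨ζ, hζ, d, hd, h2⟩ := mem_Bn_succ.1 h1
  have hl := Bn_len h
  have hle : ps 𝒟 c (i + 1) ≤ ps 𝒟 c j := ps_mono c (by omega)
  have hlt := ps_mono_succ (𝒟 := 𝒟) c i
  have h3 : ξ.take (ps 𝒟 c i) = ζ := by
    have : ξ.take (ps 𝒟 c i) = (ξ.take (ps 𝒟 c (i + 1))).take (ps 𝒟 c i) := by
      rw [List.take_take]
      congr 1
      omega
    rw [this, h2, List.take_append_of_le_length (by rw [Bn_len hζ]), ← Bn_len hζ,
      List.take_length]
  have h4 : ξ.take (ps 𝒟 c i + (c i).length) = ζ ++ c i := by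
    have : ξ.take (ps 𝒟 c i + (c i).length) =
        (ξ.take (ps 𝒟 c (i + 1))).take (ps 𝒟 c i + (c i).length) := by
      rw [List.take_take]
      congr 1
      omega
    rw [this, h2, ← List.append_assoc, List.take_append_of_le_length
      (by rw [List.length_append, Bn_len hζ]), ← Bn_len hζ, ← List.length_append,
      List.take_length]
  refine ⟨d, hd, ?_, ?_, ?_⟩
  · rw [h3]; exact hζ
  · rw [h2, h3]
  · rw [h4, h3]

theorem Bn_ne (c : ℕ → List Bool) (s j : ℕ) : ∃ ξ, ξ ∈ Bn 𝒟 c s j := by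
  induction j with
  | zero => exact ⟨[], by simp [Bn]⟩
  | succ j ih =>
    obtain ⟨ζ, hζ⟩ := ih
    obtain ⟨d, hd⟩ := 𝒟.dl_ne j (ps 𝒟 c j + (c j).length) s
    exact ⟨_, mem_Bn_succ.2 ⟨ζ, hζ, d, hd, rfl⟩⟩

/-- The class is a product. -/
theorem exchange {c : ℕ → List Bool} {s i j : ℕ} (hij : i ≤ j) {ζ ξ : List Bool}
    (hζ : ζ ∈ Bn 𝒟 c s i) (hξ : ξ ∈ Bn 𝒟 c s j) : ζ ++ ξ.drop (ps 𝒟 c i) ∈ Bn 𝒟 c s j := by
  induction hij generalizing ξ with
  | refl =>
    rw [← Bn_len hξ, List.drop_length, List.append_nil]; exact hζ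
  | step hij ih =>
    rw [mem_Bn_succ] at hξ ⊢
    obtain ⟨ζ', hζ', d, hd, rfl⟩ := hξ
    refine ⟨_, ih hζ', d, hd, ?_⟩
    rw [List.drop_append_of_le_length (by rw [Bn_len hζ']; exact ps_mono c hij),
      List.append_assoc]

/-- Chunks of a state. -/
def ch (cs : List (List Bool)) (j : ℕ) : List Bool := (cs[j]?).getD []

variable (𝒟)

/-- Branches of a state. -/
def BS (s : ℕ) (cs : List (List Bool)) : List (List Bool) := Bn 𝒟 (ch cs) s cs.length

/-- The branch `ξ` allows the `i`-th requirement to act. -/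
def att (s : ℕ) (cs : List (List Bool)) (i : ℕ) (ξ : List Bool) : Bool :=
  𝒟.cnd s (F i (ξ.take (ps 𝒟 (ch cs) i + (ch cs i).length))) &&
    decide ((F i (ξ.take (ps 𝒟 (ch cs) i + (ch cs i).length))).length < (F i ξ).length)

/-- Least requirement that needs attention. -/
def fi (s : ℕ) (cs : List (List Bool)) : ℕ :=
  lst (fun i => exL (BS 𝒟 s cs) (att 𝒟 s cs i)) cs.length

/-- The branch which is used. -/
def fx (s : ℕ) (cs : List (List Bool)) : List Bool :=
  ((BS 𝒟 s cs)[lst (fun r => att 𝒟 s cs (fi 𝒟 s cs) (((BS 𝒟 s cs)[r]?).getD []))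
    (BS 𝒟 s cs).length]?).getD []

/-- Next state. -/
def nx (s : ℕ) (cs : List (List Bool)) : List (List Bool) :=
  bif decide (fi 𝒟 s cs < cs.length) then
    cs.take (fi 𝒟 s cs) ++ [(fx 𝒟 s cs).drop (ps 𝒟 (ch cs) (fi 𝒟 s cs)), []]
  else cs ++ [[]]

/-- The states. -/
def stt : ℕ → List (List Bool)
  | 0 => []
  | s + 1 => nx 𝒟 s (stt s)

/-- Requirement `i` acts at stage `s`. -/
def Acts (s i : ℕ) : Prop := fi 𝒟 s (stt 𝒟 s) = i ∧ i < (stt 𝒟 s).length

variable {𝒟}

theorem fx_spec {s : ℕ} {cs : List (List Bool)} (h : fi 𝒟 s cs < cs.length) :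
    fx 𝒟 s cs ∈ BS 𝒟 s cs ∧ att 𝒟 s cs (fi 𝒟 s cs) (fx 𝒟 s cs) = true := by
  have h1 := lst_of_lt h
  rw [exL_iff] at h1
  obtain ⟨ξ, hξ, h2⟩ := h1
  obtain ⟨r, hr, rfl⟩ := List.getElem_of_mem hξ
  have h3 := lst_lt_of (q := fun r => att 𝒟 s cs (fi 𝒟 s cs) (((BS 𝒟 s cs)[r]?).getD []))
    (n := (BS 𝒟 s cs).length) hr (by
      rw [List.getElem?_eq_getElem hr]
      exact h2)
  obtain ⟨_, h4, h5⟩ := h3
  have h6 : fx 𝒟 s cs = (BS 𝒟 s cs)[lst (fun r => att 𝒟 s cs (fi 𝒟 s cs)
      (((BS 𝒟 s cs)[r]?).getD [])) (BS 𝒟 s cs).length] := by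
    unfold fx
    rw [List.getElem?_eq_getElem h4]
    rfl
  constructor
  · rw [h6]; exact List.getElem_mem h4
  · rw [h6]
    rw [List.getElem?_eq_getElem h4] at h5
    exact h5

theorem att_iff {s : ℕ} {cs : List (List Bool)} {i : ℕ} {ξ : List Bool} :
    att 𝒟 s cs i ξ = true ↔
      𝒟.cnd s (F i (ξ.take (ps 𝒟 (ch cs) i + (ch cs i).length))) = true ∧
      (F i (ξ.take (ps 𝒟 (ch cs) i + (ch cs i).length))).length < (F i ξ).length := by
  unfold att
  rw [Bool.and_eq_true, decide_eq_true_eq]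

/-- Effect of a stage without action. -/
theorem step_none {s : ℕ} (h : ¬ fi 𝒟 s (stt 𝒟 s) < (stt 𝒟 s).length) :
    ch (stt 𝒟 (s + 1)) = ch (stt 𝒟 s) ∧
      (stt 𝒟 (s + 1)).length = (stt 𝒟 s).length + 1 := by
  have h1 : stt 𝒟 (s + 1) = stt 𝒟 s ++ [[]] := by
    simp only [stt, nx]
    rw [decide_eq_false h, cond_false]
  rw [h1]
  refine ⟨?_, by simp⟩
  funext j
  unfold ch
  rcases lt_trichotomy j (stt 𝒟 s).length with hj | hj | hj
  · rw [List.getElem?_append_left hj]
  · rw [List.getElem?_append_right hj.ge, List.getElem?_eq_none (l := stt 𝒟 s) hj.ge]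
    simp [hj]
  · rw [List.getElem?_eq_none (l := stt 𝒟 s) hj.le, List.getElem?_eq_none]
    simp; omega

/-- Effect of an action. -/
theorem step_act {s i : ℕ} (h : Acts 𝒟 s i) : ∃ ξ ∈ BS 𝒟 s (stt 𝒟 s),
    att 𝒟 s (stt 𝒟 s) i ξ = true ∧ (stt 𝒟 (s + 1)).length = i + 2 ∧
    (∀ j < i, ch (stt 𝒟 (s + 1)) j = ch (stt 𝒟 s) j) ∧
    ch (stt 𝒟 (s + 1)) i = ξ.drop (ps 𝒟 (ch (stt 𝒟 s)) i) ∧ ch (stt 𝒟 (s + 1)) (i + 1) = [] := by
  obtain ⟨h1, h2⟩ := h
  have h3 : fi 𝒟 s (stt 𝒟 s) < (stt 𝒟 s).length := by rw [h1]; exact h2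
  obtain ⟨h4, h5⟩ := fx_spec h3
  rw [h1] at h5
  have h6 : stt 𝒟 (s + 1) = (stt 𝒟 s).take i ++
      [(fx 𝒟 s (stt 𝒟 s)).drop (ps 𝒟 (ch (stt 𝒟 s)) i), []] := by
    simp only [stt, nx]
    rw [decide_eq_true h3, cond_true, h1]
  have hl : ((stt 𝒟 s).take i).length = i := by
    rw [List.length_take]; omega
  refine ⟨_, h4, h5, ?_, fun j hj => ?_, ?_, ?_⟩
  · rw [h6, List.length_append, hl]
    rfl
  · rw [h6]
    unfold ch
    rw [List.getElem?_append_left (by omega), List.getElem?_take, if_pos hj]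
  · rw [h6]
    unfold ch
    rw [List.getElem?_append_right (by omega), hl]
    simp
  · rw [h6]
    unfold ch
    rw [List.getElem?_append_right (by omega), hl]
    simp

section comp
variable {α : Type*} [Primcodable α]

theorem c_Bn {c : α → ℕ → List Bool} (hc : Computable fun p : α × ℕ => c p.1 p.2)
    {s j : α → ℕ} (hs : Computable s) (hj : Computable j) :
    Computable fun a => Bn 𝒟 (c a) (s a) (j a) := by
  have h2 : Computable fun x : ((α × (ℕ × List (List Bool))) × List Bool) × List Bool =>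
      [x.1.2 ++ (c x.1.1.1 x.1.1.2.1 ++ x.2)] := by
    have h3 := hc.comp (g := fun x : ((α × (ℕ × List (List Bool))) × List Bool) × List Bool =>
      (x.1.1.1, x.1.1.2.1)) (by fun_prop)
    exact ccons (cappend (by fun_prop) (cappend h3 (by fun_prop))) (Computable.const [])
  have h4 : Computable fun x : (α × (ℕ × List (List Bool))) × List Bool =>
      𝒟.dl x.1.2.1 (x.2.length + (c x.1.1 x.1.2.1).length) (s x.1.1) := by
    have h3 := hc.comp (g := fun x : (α × (ℕ × List (List Bool))) × List Bool =>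
      (x.1.1, x.1.2.1)) (by fun_prop)
    exact 𝒟.c_dl.comp (g := fun x : (α × (ℕ × List (List Bool))) × List Bool =>
      ((x.1.2.1, x.2.length + (c x.1.1 x.1.2.1).length), s x.1.1))
      (cpair (cpair (by fun_prop) (cadd (by fun_prop) (clength h3))) (by fun_prop))
  have h1 : Computable fun x : α × (ℕ × List (List Bool)) =>
      x.2.2.flatMap fun ζ => (𝒟.dl x.2.1 (ζ.length + (c x.1 x.2.1).length) (s x.1)).flatMap
        fun d => [ζ ++ (c x.1 x.2.1 ++ d)] := by
    refine c_flatMap (l := fun x : α × (ℕ × List (List Bool)) => x.2.2)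
      (f := fun x ζ => (𝒟.dl x.2.1 (ζ.length + (c x.1 x.2.1).length) (s x.1)).flatMap
        fun d => [ζ ++ (c x.1 x.2.1 ++ d)]) (by fun_prop) ?_
    exact c_flatMap (l := fun x : (α × (ℕ × List (List Bool))) × List Bool =>
        𝒟.dl x.1.2.1 (x.2.length + (c x.1.1 x.1.2.1).length) (s x.1.1))
      (f := fun x d => [x.2 ++ (c x.1.1 x.1.2.1 ++ d)]) h4 h2
  have h := Computable.nat_rec (f := j) (g := fun _ : α => ([[]] : List (List Bool)))
    (h := fun (a : α) (y : ℕ × List (List Bool)) => y.2.flatMap fun (ζ : List Bool) =>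
      (𝒟.dl y.1 (ζ.length + (c a y.1).length) (s a)).flatMap fun (d : List Bool) =>
        [ζ ++ (c a y.1 ++ d)])
    hj (Computable.const _) h1
  refine h.of_eq fun a => ?_
  generalize j a = k
  induction k with
  | zero => rfl
  | succ k ih => simp only [Bn]; rw [← ih]

theorem c_ps {c : α → ℕ → List Bool} (hc : Computable fun p : α × ℕ => c p.1 p.2)
    {j : α → ℕ} (hj : Computable j) : Computable fun a => ps 𝒟 (c a) (j a) := by
  have h1 : Computable fun x : α × (ℕ × ℕ) =>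
      x.2.2 + (c x.1 x.2.1).length + 𝒟.m x.2.1 (x.2.2 + (c x.1 x.2.1).length) := by
    have h3 := hc.comp (g := fun x : α × (ℕ × ℕ) => (x.1, x.2.1)) (by fun_prop)
    have h4 : Computable fun x : α × (ℕ × ℕ) => x.2.2 + (c x.1 x.2.1).length :=
      cadd (by fun_prop) (clength h3)
    exact cadd h4 (𝒟.c_m.comp (g := fun x : α × (ℕ × ℕ) =>
      (x.2.1, x.2.2 + (c x.1 x.2.1).length)) (cpair (by fun_prop) h4))
  have h := Computable.nat_rec (f := j) (g := fun _ : α => (0 : ℕ))
    (h := fun (a : α) (y : ℕ × ℕ) => y.2 + (c a y.1).length +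
      𝒟.m y.1 (y.2 + (c a y.1).length)) hj (Computable.const _) h1
  refine h.of_eq fun a => ?_
  generalize j a = k
  induction k with
  | zero => rfl
  | succ k ih => simp only [ps]; rw [← ih]

theorem c_ch {cs : α → List (List Bool)} {j : α → ℕ} (hcs : Computable cs)
    (hj : Computable j) : Computable fun a => ch (cs a) (j a) := by
  unfold ch
  exact Primrec.option_getD.to_comp.comp (cgetElem hcs hj) (Computable.const [])

theorem c_BS {cs : α → List (List Bool)} {s : α → ℕ} (hcs : Computable cs)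
    (hs : Computable s) : Computable fun a => BS 𝒟 (s a) (cs a) := by
  unfold BS
  refine c_Bn (c := fun a => ch (cs a)) ?_ hs (clength hcs)
  exact c_ch (cs := fun p : α × ℕ => cs p.1) (j := fun p => p.2) (by fun_prop) (by fun_prop)

theorem c_att {cs : α → List (List Bool)} {s i : α → ℕ} {ξ : α → List Bool}
    (hcs : Computable cs) (hs : Computable s) (hi : Computable i) (hξ : Computable ξ) :
    Computable fun a => att 𝒟 (s a) (cs a) (i a) (ξ a) := by
  unfold att
  have h1 : Computable fun a => ps 𝒟 (ch (cs a)) (i a) + (ch (cs a) (i a)).length := by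
    refine cadd (c_ps (c := fun a => ch (cs a)) ?_ hi) (clength (c_ch hcs hi))
    exact c_ch (cs := fun p : α × ℕ => cs p.1) (j := fun p => p.2) (by fun_prop)
      (by fun_prop)
  have h2 : Computable fun a => F (i a)
      ((ξ a).take (ps 𝒟 (ch (cs a)) (i a) + (ch (cs a) (i a)).length)) :=
    c_F hi (c_take h1 hξ)
  refine cand (𝒟.c_cnd.comp (cpair hs h2)) (cdecide (cp_lt (clength h2) (clength (c_F hi hξ))))

theorem c_fi {cs : α → List (List Bool)} {s : α → ℕ} (hcs : Computable cs)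
    (hs : Computable s) : Computable fun a => fi 𝒟 (s a) (cs a) := by
  unfold fi
  refine c_lst (q := fun a i => exL (BS 𝒟 (s a) (cs a)) (att 𝒟 (s a) (cs a) i)) ?_
    (clength hcs)
  refine c_exL (l := fun p : α × ℕ => BS 𝒟 (s p.1) (cs p.1))
    (q := fun p ξ => att 𝒟 (s p.1) (cs p.1) p.2 ξ) ?_ ?_
  · exact c_BS (cs := fun p : α × ℕ => cs p.1) (s := fun p => s p.1) (by fun_prop)
      (by fun_prop)
  · exact c_att (cs := fun p : (α × ℕ) × List Bool => cs p.1.1) (s := fun p => s p.1.1)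
      (i := fun p => p.1.2) (ξ := fun p => p.2) (by fun_prop) (by fun_prop) (by fun_prop)
      (by fun_prop)

theorem c_getDnil {l : α → List (List Bool)} {r : α → ℕ} (hl : Computable l)
    (hr : Computable r) : Computable fun a => ((l a)[r a]?).getD [] :=
  Primrec.option_getD.to_comp.comp (cgetElem hl hr) (Computable.const [])

theorem c_fx {cs : α → List (List Bool)} {s : α → ℕ} (hcs : Computable cs)
    (hs : Computable s) : Computable fun a => fx 𝒟 (s a) (cs a) := by
  unfold fx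
  have hB : Computable fun a => BS 𝒟 (s a) (cs a) := c_BS hcs hs
  have hf : Computable fun a => fi 𝒟 (s a) (cs a) := c_fi hcs hs
  refine c_getDnil hB (c_lst (q := fun a r => att 𝒟 (s a) (cs a) (fi 𝒟 (s a) (cs a))
    (((BS 𝒟 (s a) (cs a))[r]?).getD [])) ?_ (clength hB))
  refine c_att (cs := fun p : α × ℕ => cs p.1) (s := fun p => s p.1)
      (i := fun p => fi 𝒟 (s p.1) (cs p.1))
      (ξ := fun p => ((BS 𝒟 (s p.1) (cs p.1))[p.2]?).getD []) (by fun_prop) (by fun_prop)
      (hf.comp (g := fun p : α × ℕ => p.1) (by fun_prop)) ?_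
  exact c_getDnil (l := fun p : α × ℕ => BS 𝒟 (s p.1) (cs p.1)) (r := fun p => p.2)
    (hB.comp (g := fun p : α × ℕ => p.1) (by fun_prop)) (by fun_prop)

theorem c_nx {cs : α → List (List Bool)} {s : α → ℕ} (hcs : Computable cs)
    (hs : Computable s) : Computable fun a => nx 𝒟 (s a) (cs a) := by
  unfold nx
  have hf : Computable fun a => fi 𝒟 (s a) (cs a) := c_fi hcs hs
  have hx : Computable fun a => fx 𝒟 (s a) (cs a) := c_fx hcs hs
  have hp : Computable fun a => ps 𝒟 (ch (cs a)) (fi 𝒟 (s a) (cs a)) := by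
    refine c_ps (c := fun a => ch (cs a)) ?_ hf
    exact c_ch (cs := fun p : α × ℕ => cs p.1) (j := fun p => p.2) (by fun_prop)
      (by fun_prop)
  refine ccond (cdecide (cp_lt hf (clength hcs))) ?_ (cappend hcs (Computable.const _))
  exact cappend (c_take hf hcs) (ccons (c_drop hp hx) (Computable.const _))

theorem c_stt : Computable (stt 𝒟) := by
  have h := Computable.nat_rec (f := fun n : ℕ => n)
    (g := fun _ : ℕ => ([] : List (List Bool)))
    (h := fun (_ : ℕ) (y : ℕ × List (List Bool)) => nx 𝒟 y.1 y.2) Computable.id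
    (Computable.const []) (show Computable fun p : ℕ × (ℕ × List (List Bool)) =>
      nx 𝒟 p.2.1 p.2.2 from c_nx (by fun_prop) (by fun_prop))
  refine h.of_eq fun n => ?_
  induction n with
  | zero => rfl
  | succ n ih => simp only [stt]; rw [← ih]

end comp

end Pool.Agent.H587R2.IPC
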