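import Pool.Agent.H587R2.IPC.Case1

/-!
General lemmas on weights of sets, truncated enumeration of requests.
-/

namespace Pool.Agent.H587R2.IPC

open Pool.Agent.Helper446 Pool.Agent.Helper446.RE Pool.Agent.Helper446.Oracle
open Pool.Agent.H587R2.NCE
open Encodable MeasureTheory
open scoped ENNReal

theorem wsum_surj {ι κ : Type*} {k : κ → ℕ} {S : κ → Prop} {T : ι → Prop} {f : ι → κ}
    (h : ∀ u, S u → ∃ i, T i ∧ f i = u) : wsum k S ≤ wsum (fun i => k (f i)) T := by
  classical
  unfold wsum
  calc ∑' u, iw (S u) (hp (k u))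
      ≤ ∑' u, ∑' i, iw (T i) (if u = f i then hp (k (f i)) else 0) := by
        refine ENNReal.tsum_le_tsum fun u => ?_
        by_cases hu : S u
        · obtain ⟨i, hi, rfl⟩ := h u hu
          refine le_trans ?_ (ENNReal.le_tsum i)
          rw [iw_pos hu, iw_pos hi, if_pos rfl]
        · rw [iw_neg hu]; exact zero_le
    _ = ∑' i, ∑' u, iw (T i) (if u = f i then hp (k (f i)) else 0) := ENNReal.tsum_comm
    _ ≤ ∑' i, iw (T i) (hp (k (f i))) := by
        refine ENNReal.tsum_le_tsum fun i => ?_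
        by_cases hi : T i
        · simp only [iw_pos hi]
          rw [tsum_ite_eq]
        · simp only [iw_neg hi, tsum_zero]
          exact le_rfl

theorem wsum_inj {ι κ : Type*} {k : κ → ℕ} {S : ι → Prop} {T : κ → Prop} {f : ι → κ}
    (hf : ∀ i j, S i → S j → f i = f j → i = j) (h : ∀ i, S i → T (f i)) :
    wsum (fun i => k (f i)) S ≤ wsum k T := by
  classical
  unfold wsum
  calc ∑' i, iw (S i) (hp (k (f i)))
      ≤ ∑' i, ∑' u, iw (S i) (if u = f i then iw (T u) (hp (k u)) else 0) := by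
        refine ENNReal.tsum_le_tsum fun i => ?_
        by_cases hi : S i
        · refine le_trans ?_ (ENNReal.le_tsum (f i))
          rw [iw_pos hi, iw_pos hi, if_pos rfl, iw_pos (h i hi)]
        · rw [iw_neg hi]; exact zero_le
    _ = ∑' u, ∑' i, iw (S i) (if u = f i then iw (T u) (hp (k u)) else 0) :=
        ENNReal.tsum_comm
    _ ≤ ∑' u, iw (T u) (hp (k u)) := by
        refine ENNReal.tsum_le_tsum fun u => ?_
        by_cases hu : ∃ i, S i ∧ f i = u
        · obtain ⟨i, hi, rfl⟩ := hu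
          refine (ENNReal.tsum_le_tsum (g := fun j => if j = i then
            iw (T (f i)) (hp (k (f i))) else 0) fun j => ?_).trans ?_
          · by_cases hj : S j
            · rw [iw_pos hj]
              by_cases he : f i = f j
              · rw [if_pos he, hf i j hi hj he, if_pos rfl]
              · rw [if_neg he]; exact zero_le
            · rw [iw_neg hj]; exact zero_le
          · rw [tsum_ite_eq]
        · have : ∀ i, iw (S i) (if u = f i then iw (T u) (hp (k u)) else 0) = 0 := by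
            intro i
            by_cases hi : S i
            · rw [iw_pos hi, if_neg]
              intro he
              exact hu ⟨i, hi, he.symm⟩
            · exact iw_neg hi
          simp only [this, tsum_zero]
          exact zero_le

theorem wsum_add {ι : Type*} {k : ι → ℕ} {S : ι → Prop} (c : ℕ) :
    wsum (fun i => k i + c) S = hp c * wsum k S := by
  unfold wsum
  rw [← ENNReal.tsum_mul_left]
  refine tsum_congr fun i => ?_
  rw [hp_add, mul_comm, iw_mul]

theorem exists_hp_mul_le {x : ℝ≥0∞} (hx : x ≠ ⊤) : ∃ c : ℕ, hp c * x ≤ 1 := by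
  obtain ⟨n, hn⟩ := ENNReal.exists_nat_gt hx
  refine ⟨n, ?_⟩
  have h1 : x ≤ ((2 ^ n : ℕ) : ℝ≥0∞) := by
    refine hn.le.trans ?_
    exact_mod_cast Nat.lt_two_pow_self.le
  calc hp n * x ≤ hp n * ((2 ^ n : ℕ) : ℝ≥0∞) := by gcongr
    _ = 1 := by rw [mul_comm]; exact two_pow_mul_hp_self n

/-! ### Approximation of weights -/

/-- Elements of the `e`-th c.e. set with property `q` which are visible at stage `s`. -/
def Vis (k : ℕ → ℕ) (q : ℕ → Bool) (e s y : ℕ) : Bool :=
  wst ℕ e s y && (q y && decide (k y ≤ s))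

/-- Weight at stage `s`, in units `2^{-s}`. -/
def apn (k : ℕ → ℕ) (q : ℕ → Bool) (e s : ℕ) : ℕ :=
  smB (fun y => bif Vis k q e s y then p2 (s - k y) else 0) s

theorem Vis_mono {k : ℕ → ℕ} {q : ℕ → Bool} {e s t y : ℕ} (h : s ≤ t)
    (hv : Vis k q e s y = true) : Vis k q e t y = true := by
  unfold Vis at *
  rw [Bool.and_eq_true, Bool.and_eq_true, decide_eq_true_eq] at *
  exact ⟨wst_mono h hv.1, hv.2.1, by omega⟩

theorem apn_mul {k : ℕ → ℕ} {q : ℕ → Bool} {e s : ℕ} :
    (apn k q e s : ℝ≥0∞) * hp s =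
      ∑ y ∈ Finset.range s, iw (Vis k q e s y = true) (hp (k y)) := by
  unfold apn
  rw [smB_eq]
  push_cast
  rw [Finset.sum_mul]
  refine Finset.sum_congr rfl fun y _ => ?_
  cases hv : Vis k q e s y
  · rw [iw_neg (by simp), cond_false]; simp
  · rw [iw_pos rfl, cond_true]
    refine two_pow_mul_hp ?_
    unfold Vis at hv
    rw [Bool.and_eq_true, Bool.and_eq_true, decide_eq_true_eq] at hv
    exact hv.2.2

/-- The `e`-th c.e. set, restricted by `q`. -/
def Qs (q : ℕ → Bool) (e y : ℕ) : Prop := (∃ s, wst ℕ e s y = true) ∧ q y = true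

theorem apn_le {k : ℕ → ℕ} {q : ℕ → Bool} {e s : ℕ} :
    (apn k q e s : ℝ≥0∞) * hp s ≤ wsum k (Qs q e) := by
  rw [apn_mul]
  refine le_trans ?_ (ENNReal.sum_le_tsum (Finset.range s))
  refine Finset.sum_le_sum fun y _ => iw_mono fun h => ?_
  unfold Vis at h
  rw [Bool.and_eq_true, Bool.and_eq_true] at h
  exact ⟨⟨s, h.1⟩, h.2.1⟩

theorem lt_apn {k : ℕ → ℕ} {q : ℕ → Bool} {e : ℕ} {c : ℝ≥0∞} (hc : c < wsum k (Qs q e)) :
    ∃ s0, ∀ s ≥ s0, c < (apn k q e s : ℝ≥0∞) * hp s := by
  have h1 := (ENNReal.tendsto_nat_tsum fun y => iw (Qs q e y) (hp (k y))).eventually_const_lt hc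
  obtain ⟨n, hn⟩ := h1.exists
  have h2 : ∃ s1, n ≤ s1 ∧ ∀ y < n, Qs q e y → Vis k q e s1 y = true := by
    clear hn
    induction n with
    | zero => exact ⟨0, le_rfl, fun y hy => by omega⟩
    | succ n ih =>
      obtain ⟨s1, h2, h3⟩ := ih
      by_cases hq : Qs q e n
      · obtain ⟨⟨s, hs⟩, hq⟩ := hq
        refine ⟨max (max s1 s) (max (n + 1) (k n)), by omega, fun y hy hy' => ?_⟩
        rcases Nat.lt_succ_iff_lt_or_eq.1 hy with h | rfl
        · exact Vis_mono (by omega) (h3 y h hy')
        · unfold Vis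
          rw [Bool.and_eq_true, Bool.and_eq_true, decide_eq_true_eq]
          exact ⟨wst_mono (by omega) hs, hq, by omega⟩
      · refine ⟨s1 + 1, by omega, fun y hy hy' => ?_⟩
        rcases Nat.lt_succ_iff_lt_or_eq.1 hy with h | rfl
        · exact Vis_mono (by omega) (h3 y h hy')
        · exact absurd hy' hq
  obtain ⟨s1, h3, h4⟩ := h2
  refine ⟨s1, fun s hs => lt_of_lt_of_le hn ?_⟩
  rw [apn_mul]
  calc ∑ y ∈ Finset.range n, iw (Qs q e y) (hp (k y))
      ≤ ∑ y ∈ Finset.range n, iw (Vis k q e s y = true) (hp (k y)) :=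
        Finset.sum_le_sum fun y hy => iw_mono fun h =>
          Vis_mono hs (h4 y (Finset.mem_range.1 hy) h)
    _ ≤ ∑ y ∈ Finset.range s, iw (Vis k q e s y = true) (hp (k y)) :=
        Finset.sum_le_sum_of_subset (Finset.range_mono (by omega))

section comp
variable {α : Type*} [Primcodable α]

theorem c_Vis {k : ℕ → ℕ} (hk : Computable k) {q : α → ℕ → Bool}
    (hq : Computable fun p : α × ℕ => q p.1 p.2) {e s y : α → ℕ} (he : Computable e)
    (hs : Computable s) (hy : Computable y) :
    Computable fun a => Vis k (q a) (e a) (s a) (y a) := by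
  unfold Vis
  have h1 : Computable fun a => wst ℕ (e a) (s a) (y a) :=
    wst_comp.comp (f := fun p : (ℕ × ℕ) × ℕ => wst ℕ p.1.1 p.1.2 p.2)
      (g := fun a => ((e a, s a), y a)) (by fun_prop)
  refine cand h1 (cand (hq.comp (g := fun a => (a, y a)) (by fun_prop)) ?_)
  exact cdecide (cp_le (hk.comp hy) hs)

theorem c_apn {k : ℕ → ℕ} (hk : Computable k) {q : α → ℕ → Bool}
    (hq : Computable fun p : α × ℕ => q p.1 p.2) {e s : α → ℕ} (he : Computable e)
    (hs : Computable s) :
    Computable fun a => apn k (q a) (e a) (s a) := by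
  unfold apn
  refine c_smB (q := fun a y => bif Vis k (q a) (e a) (s a) y then p2 (s a - k y) else 0) ?_ hs
  refine ccond ?_ (c_p2 (csub (by fun_prop) (hk.comp (by fun_prop)))) (Computable.const 0)
  exact c_Vis hk (q := fun p : α × ℕ => q p.1) (e := fun p => e p.1) (s := fun p => s p.1)
    (y := fun p => p.2) (hq.comp (g := fun p : (α × ℕ) × ℕ => (p.1.1, p.2)) (by fun_prop))
    (by fun_prop) (by fun_prop) (by fun_prop)

end comp

/-! ### Truncated c.e. sets -/

/-- The elements enumerated while the total weight is at most one. -/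
def Tr (k : ℕ → ℕ) (e x : ℕ) : Prop :=
  ∃ s, Vis k (fun _ => true) e s x = true ∧ x < s ∧ apn k (fun _ => true) e s ≤ 2 ^ s

theorem apn_zero (k : ℕ → ℕ) (q : ℕ → Bool) (e : ℕ) : apn k q e 0 = 0 := rfl

theorem wsum_Tr (k : ℕ → ℕ) (e : ℕ) : wsum k (Tr k e) ≤ 1 := by
  refine ENNReal.tsum_le_of_sum_range_le fun n => ?_
  have h : ∃ S, apn k (fun _ => true) e S ≤ 2 ^ S ∧
      ∀ x < n, Tr k e x → Vis k (fun _ => true) e S x = true ∧ x < S := by
    induction n with
    | zero => exact ⟨0, by rw [apn_zero]; simp, fun x hx => by omega⟩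
    | succ n ih =>
      obtain ⟨S, h1, h2⟩ := ih
      by_cases hn : Tr k e n
      · obtain ⟨s, h3, h4, h5⟩ := hn
        refine ⟨max S s, ?_, fun x hx hx' => ?_⟩
        · rcases le_total S s with h | h
          · rw [max_eq_right h]; exact h5
          · rw [max_eq_left h]; exact h1
        · rcases Nat.lt_succ_iff_lt_or_eq.1 hx with h | rfl
          · obtain ⟨h6, h7⟩ := h2 x h hx'
            exact ⟨Vis_mono (le_max_left _ _) h6, by omega⟩
          · exact ⟨Vis_mono (le_max_right _ _) h3, by omega⟩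
      · refine ⟨S, h1, fun x hx hx' => ?_⟩
        rcases Nat.lt_succ_iff_lt_or_eq.1 hx with h | rfl
        · exact h2 x h hx'
        · exact absurd hx' hn
  obtain ⟨S, h1, h2⟩ := h
  calc ∑ x ∈ Finset.range n, iw (Tr k e x) (hp (k x))
      ≤ ∑ x ∈ Finset.range S, iw (Vis k (fun _ => true) e S x = true) (hp (k x)) := by
        rw [← Finset.sum_filter_add_sum_filter_not (Finset.range n) (fun x => x < S)]
        have h3 : ∑ x ∈ (Finset.range n).filter (fun x => ¬ x < S), iw (Tr k e x) (hp (k x)) = 0 := by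
          refine Finset.sum_eq_zero fun x hx => ?_
          rw [Finset.mem_filter, Finset.mem_range] at hx
          exact iw_neg fun h => hx.2 (h2 x hx.1 h).2
        rw [h3, add_zero]
        calc ∑ x ∈ (Finset.range n).filter (fun x => x < S), iw (Tr k e x) (hp (k x))
            ≤ ∑ x ∈ (Finset.range n).filter (fun x => x < S),
              iw (Vis k (fun _ => true) e S x = true) (hp (k x)) := by
              refine Finset.sum_le_sum fun x hx => iw_mono fun h => ?_
              rw [Finset.mem_filter, Finset.mem_range] at hx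
              exact (h2 x hx.1 h).1
          _ ≤ _ := by
              refine Finset.sum_le_sum_of_subset fun x hx => ?_
              rw [Finset.mem_filter] at hx
              exact Finset.mem_range.2 hx.2
    _ = (apn k (fun _ => true) e S : ℝ≥0∞) * hp S := apn_mul.symm
    _ ≤ ((2 ^ S : ℕ) : ℝ≥0∞) * hp S := by gcongr
    _ = 1 := two_pow_mul_hp_self S

theorem exists_Tr {k : ℕ → ℕ} {P : ℕ → Prop} (hP : REPred P) (h : wsum k P ≤ 1) :
    ∃ e, ∀ x, Tr k e x ↔ P x := by
  obtain ⟨e, he⟩ := wst_univ hP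
  refine ⟨e, fun x => ?_⟩
  have h1 : ∀ s, apn k (fun _ => true) e s ≤ 2 ^ s := by
    intro s
    have h2 : (apn k (fun _ => true) e s : ℝ≥0∞) * hp s ≤ 1 := by
      refine apn_le.trans (le_trans (wsum_mono fun y hy => ?_) h)
      exact (he y).2 hy.1
    have h3 : (apn k (fun _ => true) e s : ℝ≥0∞) ≤ ((2 ^ s : ℕ) : ℝ≥0∞) := by
      calc (apn k (fun _ => true) e s : ℝ≥0∞)
          = (apn k (fun _ => true) e s : ℝ≥0∞) * (((2 ^ s : ℕ) : ℝ≥0∞) * hp s) := by
            rw [two_pow_mul_hp_self, mul_one]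
        _ = ((2 ^ s : ℕ) : ℝ≥0∞) * ((apn k (fun _ => true) e s : ℝ≥0∞) * hp s) := by ring
        _ ≤ ((2 ^ s : ℕ) : ℝ≥0∞) * 1 := by gcongr
        _ = _ := mul_one _
    exact_mod_cast h3
  constructor
  · rintro ⟨s, h2, _, _⟩
    unfold Vis at h2
    rw [Bool.and_eq_true] at h2
    exact (he x).2 ⟨s, h2.1⟩
  · intro hx
    obtain ⟨s, hs⟩ := (he x).1 hx
    refine ⟨max s (max (x + 1) (k x)), ?_, by omega, h1 _⟩
    unfold Vis
    rw [Bool.and_eq_true, Bool.and_eq_true, decide_eq_true_eq]
    exact ⟨wst_mono (le_max_left _ _) hs, rfl, by omega⟩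

theorem re_Tr {α : Type*} [Primcodable α] {k : ℕ → ℕ} (hk : Computable k) {e x : α → ℕ}
    (he : Computable e) (hx : Computable x) : REPred fun a => Tr k (e a) (x a) := by
  unfold Tr
  refine RE.ex (p := fun (a : α) s => Vis k (fun _ => true) (e a) s (x a) = true ∧ x a < s ∧
    apn k (fun _ => true) (e a) s ≤ 2 ^ s) ?_
  refine RE.and (RE.eq ?_ (Computable.const true)) (RE.and (RE.lt (by fun_prop) (by fun_prop))
    (RE.le ?_ ?_))
  · exact c_Vis hk (q := fun (_ : α × ℕ) _ => true) (e := fun p : α × ℕ => e p.1)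
      (s := fun p => p.2) (y := fun p => x p.1) (by fun_prop) (by fun_prop) (by fun_prop)
      (by fun_prop)
  · exact c_apn hk (q := fun (_ : α × ℕ) _ => true) (e := fun p : α × ℕ => e p.1)
      (s := fun p => p.2) (by fun_prop) (by fun_prop) (by fun_prop)
  · exact c_p2 (f := fun p : α × ℕ => p.2) (by fun_prop)

/-! ### Initial segments of the oracle -/

theorem REIn_sg {α : Type*} [Primcodable α] {B : ℕ → Bool} {S : α → List Bool → Prop}
    (hS : REIn (st B) fun x : α × List Bool => S x.1 x.2) {f : α → ℕ} (hf : Computable f) :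
    REIn (st B) fun a => S a (sg B (f a)) := by
  have h1 : REIn (st B) fun a => ∃ η : List Bool, (η.length = f a ∧ ∀ i < f a,
      (η[i]? = some true ∧ B i = true) ∨ (η[i]? = some false ∧ B i = false)) ∧ S a η := by
    refine REIn.ex (S := fun (a : α) (η : List Bool) => (η.length = f a ∧ ∀ i < f a,
      (η[i]? = some true ∧ B i = true) ∨ (η[i]? = some false ∧ B i = false)) ∧ S a η) ?_
    refine REIn.and (REIn.and (REIn.of_re (RE.eq (by fun_prop) (by fun_prop))) ?_) hS
    refine REIn.all_lt (S := fun (x : α × List Bool) i =>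
      (x.2[i]? = some true ∧ B i = true) ∨ (x.2[i]? = some false ∧ B i = false)) ?_
      (f := fun x => f x.1) (by fun_prop)
    refine REIn.or (REIn.and (REIn.of_re (RE.eq (by fun_prop) (by fun_prop))) ?_)
      (REIn.and (REIn.of_re (RE.eq (by fun_prop) (by fun_prop))) ?_)
    · exact R_true (R_refl B) (f := fun x : (α × List Bool) × ℕ => x.2) (by fun_prop) true
    · exact R_true (R_refl B) (f := fun x : (α × List Bool) × ℕ => x.2) (by fun_prop) false
  refine h1.of_eq fun a => ?_
  constructor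
  · rintro ⟨η, ⟨h2, h3⟩, h4⟩
    have h5 : η = sg B (f a) := by
      refine List.ext_getElem? fun i => ?_
      by_cases hi : i < f a
      · rw [sg_get B hi]
        rcases h3 i hi with ⟨h6, h7⟩ | ⟨h6, h7⟩
        · rw [h6, h7]
        · rw [h6, h7]
      · rw [List.getElem?_eq_none (by omega), List.getElem?_eq_none (by rw [sg_length]; omega)]
    rw [← h5]; exact h4
  · intro h
    refine ⟨sg B (f a), ⟨sg_length _ _, fun i hi => ?_⟩, h⟩
    rw [sg_get B hi]
    cases B i <;> simp

end Pool.Agent.H587R2.IPC
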