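import Pool.Agent.H587R2.IPC.Wt

/-!
Hungry sets.  `w` is an index of a set `W` enumerable in `B`, with weights `2^{-k y}`.  For each
functional `e` strings are assigned to pairs `(η, y)` such that `y` is enumerated with oracle `η`
and the output of the functional on the string extends `η`.
-/

namespace Pool.Agent.H587R2.IPC

open Pool.Agent.Helper446 Pool.Agent.Helper446.RE Pool.Agent.Helper446.Oracle
open Pool.Agent.H587R2.NCE
open Encodable MeasureTheory
open scoped ENNReal

/-- Bounded sums. -/
def smB (q : ℕ → ℕ) : ℕ → ℕ
  | 0 => 0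
  | n + 1 => smB q n + q n

theorem smB_eq (q : ℕ → ℕ) (n : ℕ) : smB q n = ∑ i ∈ Finset.range n, q i := by
  induction n with
  | zero => rfl
  | succ n ih => rw [smB, ih, Finset.sum_range_succ]

theorem smB_congr {q q' : ℕ → ℕ} {n : ℕ} (h : ∀ i < n, q i = q' i) : smB q n = smB q' n := by
  rw [smB_eq, smB_eq]
  exact Finset.sum_congr rfl fun i hi => h i (Finset.mem_range.1 hi)

/-- Powers of two. -/
def p2 (n : ℕ) : ℕ := 2 ^ n

section comb
variable {α : Type*} [Primcodable α]

theorem c_smB {q : α → ℕ → ℕ} (hq : Computable fun p : α × ℕ => q p.1 p.2) {f : α → ℕ}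
    (hf : Computable f) : Computable fun a => smB (q a) (f a) := by
  have h := Computable.nat_rec (f := f) (g := fun _ : α => (0 : ℕ))
    (h := fun (a : α) (y : ℕ × ℕ) => y.2 + q a y.1) hf (Computable.const 0)
    (show Computable fun x : α × (ℕ × ℕ) => x.2.2 + q x.1 x.2.1 by
      have h1 := hq.comp (g := fun x : α × (ℕ × ℕ) => (x.1, x.2.1)) (by fun_prop)
      exact cadd (by fun_prop) h1)
  refine h.of_eq fun a => ?_
  generalize f a = n
  induction n with
  | zero => rfl
  | succ n ih => simp only [smB]; rw [← ih]

theorem c_p2 {f : α → ℕ} (hf : Computable f) : Computable fun a => p2 (f a) := by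
  have h := Computable.nat_rec (f := f) (g := fun _ : α => (1 : ℕ))
    (h := fun (_ : α) (y : ℕ × ℕ) => y.2 * 2) hf (Computable.const 1)
    (show Computable fun x : α × (ℕ × ℕ) => x.2.2 * 2 from
      cmul (by fun_prop) (Computable.const 2))
  refine h.of_eq fun a => ?_
  generalize f a = n
  induction n with
  | zero => rfl
  | succ n ih => unfold p2 at *; rw [pow_succ, ← ih]

end comb

/-- `y` is enumerated with index `w` and oracle `X` first at `n`. -/
def Fst (w : ℕ) (X : ℕ → Bool) (y n : ℕ) : Prop :=
  ax w X n y true = true ∧ ∀ m < n, ax w X m y true = false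

theorem Fst.unique {w : ℕ} {X : ℕ → Bool} {y n m : ℕ} (h : Fst w X y n) (h' : Fst w X y m) :
    n = m := by
  rcases lt_trichotomy n m with h1 | h1 | h1
  · have := h'.2 n h1
    rw [h.1] at this; cases this
  · exact h1
  · have := h.2 m h1
    rw [h'.1] at this; cases this

theorem Fst.congr {w : ℕ} {X Y : ℕ → Bool} {y n : ℕ} (h : Fst w X y n)
    (hXY : ∀ i < n, X i = Y i) : Fst w Y y n := by
  refine ⟨?_, fun m hm => ?_⟩
  · rw [← ax_congr hXY]; exact h.1
  · rw [← ax_congr fun i hi => hXY i (by omega)]; exact h.2 m hm

theorem exists_Fst {w : ℕ} {X : ℕ → Bool} {y : ℕ} (h : ∃ n, ax w X n y true = true) :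
    ∃ n, Fst w X y n := by
  classical
  refine ⟨Nat.find h, Nat.find_spec h, fun m hm => ?_⟩
  have := Nat.find_min h hm
  simpa using this

/-- First stage of enumeration with a string as an oracle. -/
def nn (w : ℕ) (η : List Bool) (y : ℕ) : ℕ :=
  lst (fun m => ax w (xt η) m y true) (η.length + 1)

theorem nn_Fst {w : ℕ} {η : List Bool} {y : ℕ} (h : nn w η y ≤ η.length) :
    Fst w (xt η) y (nn w η y) := by
  have h1 := lst_of_lt (q := fun m => ax w (xt η) m y true) (n := η.length + 1)
    (Nat.lt_succ_of_le h)
  exact ⟨h1, fun m hm => lst_min (q := fun m => ax w (xt η) m y true) hm⟩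

theorem nn_eq {w : ℕ} {η : List Bool} {y n : ℕ} (h : Fst w (xt η) y n) (hn : n ≤ η.length) :
    nn w η y = n :=
  lst_eq_of (q := fun m => ax w (xt η) m y true) (by omega) h.1 h.2

/-- The candidate test. -/
def cdt (w : ℕ) (k : ℕ → ℕ) (e : ℕ) (H : List (Option (List Bool × ℕ))) (t y : ℕ) : Bool :=
  decide (nn w (F e (str t)) y ≤ (F e (str t)).length) &&
    (decide (e + 3 + k y ≤ (str t).length) &&
      decide (smB (fun r => bif decide (H[r]? =
        some (some ((F e (str t)).take (nn w (F e (str t)) y), y))) then
          p2 ((str t).length - (str r).length) else 0) t + 1 ≤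
        p2 ((str t).length - (e + 3 + k y))))

/-- One step. -/
def stp (w : ℕ) (k : ℕ → ℕ) (e : ℕ) (H : List (Option (List Bool × ℕ))) (t : ℕ) :
    Option (List Bool × ℕ) :=
  bif exB (fun r => ((H[r]?).getD none).isSome && decide (str r <+: str t)) t then none else
    bif decide (lst (cdt w k e H t) (str t).length < (str t).length) then
      some ((F e (str t)).take (nn w (F e (str t)) (lst (cdt w k e H t) (str t).length)),
        lst (cdt w k e H t) (str t).length)
    else none

/-- The history. -/
def Hs (w : ℕ) (k : ℕ → ℕ) (e : ℕ) : ℕ → List (Option (List Bool × ℕ))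
  | 0 => []
  | t + 1 => Hs w k e t ++ [stp w k e (Hs w k e t) t]

/-- The pair to which the `t`-th string is fed. -/
def ea (w : ℕ) (k : ℕ → ℕ) (e t : ℕ) : Option (List Bool × ℕ) := stp w k e (Hs w k e t) t

section basic
variable {w : ℕ} {k : ℕ → ℕ} {e : ℕ}

theorem Hs_length (t : ℕ) : (Hs w k e t).length = t := by
  induction t with
  | zero => rfl
  | succ t ih => simp [Hs, ih]

theorem Hs_get {t r : ℕ} (h : r < t) : (Hs w k e t)[r]? = some (ea w k e r) := by
  induction t with
  | zero => omega
  | succ t ih =>
    simp only [Hs]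
    rcases Nat.lt_succ_iff_lt_or_eq.1 h with h1 | rfl
    · rw [List.getElem?_append_left (by rw [Hs_length]; exact h1)]
      exact ih h1
    · rw [List.getElem?_append_right (by rw [Hs_length])]
      simp [Hs_length, ea]

/-- Natural number version of the amount fed before `t`, in units `2^{-M}`. -/
def am (w : ℕ) (k : ℕ → ℕ) (e : ℕ) (η : List Bool) (y M t : ℕ) : ℕ :=
  smB (fun r => bif decide (ea w k e r = some (η, y)) then p2 (M - (str r).length) else 0) t

theorem cdt_iff {t y : ℕ} : cdt w k e (Hs w k e t) t y = true ↔
    nn w (F e (str t)) y ≤ (F e (str t)).length ∧ e + 3 + k y ≤ (str t).length ∧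
    am w k e ((F e (str t)).take (nn w (F e (str t)) y)) y (str t).length t + 1 ≤
      2 ^ ((str t).length - (e + 3 + k y)) := by
  unfold cdt am
  rw [Bool.and_eq_true, Bool.and_eq_true, decide_eq_true_eq, decide_eq_true_eq,
    decide_eq_true_eq]
  have h : smB (fun r => bif decide ((Hs w k e t)[r]? =
        some (some ((F e (str t)).take (nn w (F e (str t)) y), y))) then
          p2 ((str t).length - (str r).length) else 0) t =
      smB (fun r => bif decide (ea w k e r =
        some ((F e (str t)).take (nn w (F e (str t)) y), y)) then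
          p2 ((str t).length - (str r).length) else 0) t := by
    refine smB_congr fun r hr => ?_
    rw [Hs_get hr]
    simp only [Option.some.injEq]
  rw [h]
  rfl

theorem skip_iff {t : ℕ} : exB (fun r => (((Hs w k e t)[r]?).getD none).isSome &&
    decide (str r <+: str t)) t = true ↔ ∃ r < t, (ea w k e r).isSome = true ∧
      str r <+: str t := by
  rw [exB_iff]
  constructor
  · rintro ⟨r, hr, h⟩
    rw [Hs_get hr, Bool.and_eq_true, decide_eq_true_eq] at h
    exact ⟨r, hr, h⟩
  · rintro ⟨r, hr, h⟩
    refine ⟨r, hr, ?_⟩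
    rw [Hs_get hr, Bool.and_eq_true, decide_eq_true_eq]
    exact h

theorem ea_some {t y : ℕ} {η : List Bool} (h : ea w k e t = some (η, y)) :
    (∀ r < t, (ea w k e r).isSome = true → ¬ str r <+: str t) ∧
    η <+: F e (str t) ∧ Fst w (xt η) y η.length ∧ e + 3 + k y ≤ (str t).length ∧
    am w k e η y (str t).length t + 1 ≤ 2 ^ ((str t).length - (e + 3 + k y)) := by
  unfold ea stp at h
  cases h1 : exB (fun r => (((Hs w k e t)[r]?).getD none).isSome &&
    decide (str r <+: str t)) t
  · rw [h1, cond_false] at h
    cases h2 : decide (lst (cdt w k e (Hs w k e t) t) (str t).length < (str t).length)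
    · rw [h2, cond_false] at h; cases h
    · rw [h2, cond_true, Option.some.injEq, Prod.mk.injEq] at h
      obtain ⟨h3, h4⟩ := h
      rw [decide_eq_true_eq] at h2
      have h5 := lst_of_lt h2
      rw [h4] at h5 h3
      rw [cdt_iff] at h5
      obtain ⟨h6, h7, h8⟩ := h5
      rw [h3] at h8
      have hlen : η.length = nn w (F e (str t)) y := by
        rw [← h3, List.length_take]; omega
      refine ⟨?_, ?_, ?_, h7, h8⟩
      · intro r hr hs hp
        have := skip_iff.2 ⟨r, hr, hs, hp⟩
        rw [h1] at this; cases this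
      · rw [← h3]; exact List.take_prefix _ _
      · rw [hlen]
        refine (nn_Fst h6).congr fun i hi => ?_
        exact (prefix_xt (by rw [← h3]; exact List.take_prefix _ _) (by omega)).symm
  · rw [h1, cond_true] at h; cases h

theorem ea_ne_none {t y n : ℕ} (h1 : ∀ r < t, (ea w k e r).isSome = true → ¬ str r <+: str t)
    (hy : y < (str t).length) (hF : Fst w (xt (F e (str t))) y n)
    (hn : n ≤ (F e (str t)).length) (hk : e + 3 + k y ≤ (str t).length)
    (ha : am w k e ((F e (str t)).take n) y (str t).length t + 1 ≤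
      2 ^ ((str t).length - (e + 3 + k y))) : (ea w k e t).isSome = true := by
  unfold ea stp
  have hs : exB (fun r => (((Hs w k e t)[r]?).getD none).isSome &&
      decide (str r <+: str t)) t = false := by
    rw [← Bool.not_eq_true, skip_iff]
    rintro ⟨r, hr, h2, h3⟩
    exact h1 r hr h2 h3
  rw [hs, cond_false]
  have hc : cdt w k e (Hs w k e t) t y = true := by
    rw [cdt_iff, nn_eq hF hn]
    exact ⟨hn, hk, ha⟩
  have := (lst_lt_of (q := cdt w k e (Hs w k e t) t) (n := (str t).length) hy hc).2.1
  rw [decide_eq_true this, cond_true]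
  rfl

/-- Amount fed to `(η, y)` before `t`. -/
noncomputable def amt (w : ℕ) (k : ℕ → ℕ) (e : ℕ) (η : List Bool) (y t : ℕ) : ℝ≥0∞ :=
  ∑ r ∈ Finset.range t, iw (ea w k e r = some (η, y)) (hp (str r).length)

theorem am_mul {η : List Bool} {y M t : ℕ} (h : ∀ r < t, (str r).length ≤ M) :
    (am w k e η y M t : ℝ≥0∞) * hp M = amt w k e η y t := by
  unfold am amt
  rw [smB_eq]
  push_cast
  rw [Finset.sum_mul]
  refine Finset.sum_congr rfl fun r hr => ?_
  by_cases hc : ea w k e r = some (η, y)
  · rw [iw_pos hc, decide_eq_true hc, cond_true]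
    exact two_pow_mul_hp (h r (Finset.mem_range.1 hr))
  · rw [iw_neg hc, decide_eq_false hc, cond_false]
    simp

theorem amt_le (η : List Bool) (y t : ℕ) : amt w k e η y t ≤ hp (e + 3 + k y) := by
  induction t with
  | zero => unfold amt; simp
  | succ t ih =>
    have h1 : amt w k e η y (t + 1) = amt w k e η y t +
        iw (ea w k e t = some (η, y)) (hp (str t).length) := by
      unfold amt; rw [Finset.sum_range_succ]
    rw [h1]
    by_cases hc : ea w k e t = some (η, y)
    · rw [iw_pos hc]
      obtain ⟨_, _, _, h2, h3⟩ := ea_some hc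
      rw [← am_mul (M := (str t).length) fun r hr => length_str hr.le]
      calc (am w k e η y (str t).length t : ℝ≥0∞) * hp (str t).length + hp (str t).length
          = ((am w k e η y (str t).length t + 1 : ℕ) : ℝ≥0∞) * hp (str t).length := by
            push_cast; ring
        _ ≤ ((2 ^ ((str t).length - (e + 3 + k y)) : ℕ) : ℝ≥0∞) * hp (str t).length := by
            gcongr
        _ = hp (e + 3 + k y) := two_pow_mul_hp h2
    · rw [iw_neg hc, add_zero]; exact ih

theorem tsum_ea_le (η : List Bool) (y : ℕ) :
    ∑' t, iw (ea w k e t = some (η, y)) (hp (str t).length) ≤ hp (e + 3 + k y) :=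
  ENNReal.tsum_le_of_sum_range_le fun t => amt_le η y t

theorem tsum_ea_le_one : ∑' t, iw ((ea w k e t).isSome = true) (hp (str t).length) ≤ 1 := by
  refine kraft (P := fun t => (ea w k e t).isSome = true) (z := str) ?_
  intro s t hst hs ht hp
  obtain ⟨⟨η, y⟩, hη⟩ := Option.isSome_iff_exists.1 hs
  obtain ⟨⟨η', y'⟩, hη'⟩ := Option.isSome_iff_exists.1 ht
  rcases lt_or_gt_of_ne hst with h | h
  · exact (ea_some hη').1 s h hs hp
  · have h1 : (str s).length = (str t).length :=
      le_antisymm hp.length_le (length_str h.le)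
    exact hst (str_inj (hp.eq_of_length h1))

/-- The set of elements which are fed at least half of their demand. -/
def Le (w : ℕ) (k : ℕ → ℕ) (e y : ℕ) : Prop :=
  ∃ p : List Bool × ℕ, 2 ^ (str p.2).length ≤
    am w k e p.1 y (str p.2).length p.2 * 2 ^ (e + 3 + k y + 1)

theorem Le_spec {y : ℕ} (h : Le w k e y) :
    ∃ η t, hp (e + 3 + k y + 1) ≤ amt w k e η y t := by
  obtain ⟨⟨η, t⟩, h⟩ := h
  refine ⟨η, t, ?_⟩
  dsimp only at h
  rw [← am_mul (M := (str t).length) fun r hr => length_str hr.le]
  have h1 : ((2 ^ (str t).length : ℕ) : ℝ≥0∞) ≤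
      ((am w k e η y (str t).length t * 2 ^ (e + 3 + k y + 1) : ℕ) : ℝ≥0∞) := by
    exact_mod_cast h
  calc hp (e + 3 + k y + 1)
      = ((2 ^ (str t).length : ℕ) : ℝ≥0∞) * hp (str t).length * hp (e + 3 + k y + 1) := by
        rw [two_pow_mul_hp_self, one_mul]
    _ ≤ ((am w k e η y (str t).length t * 2 ^ (e + 3 + k y + 1) : ℕ) : ℝ≥0∞) *
        hp (str t).length * hp (e + 3 + k y + 1) := by gcongr
    _ = (am w k e η y (str t).length t : ℝ≥0∞) * hp (str t).length *
        (((2 ^ (e + 3 + k y + 1) : ℕ) : ℝ≥0∞) * hp (e + 3 + k y + 1)) := by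
        push_cast; ring
    _ = (am w k e η y (str t).length t : ℝ≥0∞) * hp (str t).length := by
        rw [two_pow_mul_hp_self, mul_one]

theorem not_Le {y : ℕ} (h : ¬ Le w k e y) (η : List Bool) (t : ℕ) :
    am w k e η y (str t).length t * 2 ^ (e + 3 + k y + 1) < 2 ^ (str t).length := by
  by_contra hc
  push Not at hc
  exact h ⟨(η, t), hc⟩

theorem wsum_Le : wsum k (Le w k e) ≠ ⊤ := by
  classical
  have h1 : ∀ y, ∃ η, Le w k e y → hp (e + 3 + k y + 1) ≤
      ∑' t, iw (ea w k e t = some (η, y)) (hp (str t).length) := by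
    intro y
    by_cases hy : Le w k e y
    · obtain ⟨η, t, h⟩ := Le_spec hy
      refine ⟨η, fun _ => h.trans ?_⟩
      exact ENNReal.sum_le_tsum _
    · exact ⟨[], fun h => absurd h hy⟩
  choose η hη using h1
  have h2 : hp (e + 4) * wsum k (Le w k e) ≤ 1 := by
    unfold wsum
    rw [← ENNReal.tsum_mul_left]
    calc ∑' y, hp (e + 4) * iw (Le w k e y) (hp (k y))
        ≤ ∑' y, ∑' t, iw (ea w k e t = some (η y, y)) (hp (str t).length) := by
          refine ENNReal.tsum_le_tsum fun y => ?_
          by_cases hy : Le w k e y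
          · rw [iw_pos hy, ← hp_add]
            have := hη y hy
            rwa [show e + 3 + k y + 1 = e + 4 + k y by ring] at this
          · rw [iw_neg hy, mul_zero]; exact zero_le
      _ = ∑' t, ∑' y, iw (ea w k e t = some (η y, y)) (hp (str t).length) :=
          ENNReal.tsum_comm
      _ ≤ ∑' t, iw ((ea w k e t).isSome = true) (hp (str t).length) := by
          refine ENNReal.tsum_le_tsum fun t => ?_
          rcases hc : ea w k e t with _ | ⟨η', y'⟩
          · have : ∀ y, iw ((none : Option (List Bool × ℕ)) = some (η y, y))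
                (hp (str t).length) = 0 := by
              intro y
              exact iw_neg (by simp)
            simp only [this, tsum_zero]
            exact zero_le
          · rw [iw_pos (P := (some (η', y')).isSome = true) rfl]
            refine (ENNReal.tsum_le_tsum (g := fun y => if y = y' then hp (str t).length
              else 0) fun y => ?_).trans ?_
            · by_cases hy : y = y'
              · subst hy
                rw [if_pos rfl]; exact iw_le
              · rw [if_neg hy, iw_neg]
                intro h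
                simp only [Option.some.injEq, Prod.mk.injEq] at h
                exact hy h.2.symm
            · rw [tsum_ite_eq]
      _ ≤ 1 := tsum_ea_le_one
  intro htop
  rw [htop, ENNReal.mul_top (hp_ne_zero _)] at h2
  simp at h2

end basic

section comp
variable {α : Type*} [Primcodable α] {w : ℕ} {k : ℕ → ℕ}

theorem c_nn {η : α → List Bool} {y : α → ℕ} (hη : Computable η) (hy : Computable y) :
    Computable fun a => nn w (η a) (y a) := by
  unfold nn
  refine c_lst (q := fun a m => ax w (xt (η a)) m (y a) true) ?_ (by fun_prop)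
  refine c_ax (e := fun _ : α × ℕ => w) (X := fun p => xt (η p.1)) (n := fun p => p.2)
    (y := fun p => y p.1) (b := fun _ => true) (by fun_prop) (by fun_prop) (by fun_prop)
    (by fun_prop) ?_
  exact c_xt (ζ := fun p : (α × ℕ) × ℕ => η p.1.1) (i := fun p => p.2) (by fun_prop)
    (by fun_prop)

theorem c_cdt (hk : Computable k) {e t y : α → ℕ} {H : α → List (Option (List Bool × ℕ))}
    (he : Computable e) (hH : Computable H) (ht : Computable t) (hy : Computable y) :
    Computable fun a => cdt w k (e a) (H a) (t a) (y a) := by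
  unfold cdt
  have hs : Computable fun a => str (t a) := c_str ht
  have hF : Computable fun a => F (e a) (str (t a)) := c_F he hs
  have hn : Computable fun a => nn w (F (e a) (str (t a))) (y a) := c_nn hF hy
  have hky : Computable fun a => k (y a) := hk.comp hy
  refine cand (cdecide (cp_le hn (clength hF))) (cand ?_ ?_)
  · exact cdecide (cp_le (cadd (cadd he (Computable.const 3)) hky) (clength hs))
  · refine cdecide (cp_le (cadd ?_ (Computable.const 1))
      (c_p2 (csub (clength hs) (cadd (cadd he (Computable.const 3)) hky))))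
    refine c_smB (q := fun a r => bif decide ((H a)[r]? =
        some (some ((F (e a) (str (t a))).take (nn w (F (e a) (str (t a))) (y a)), y a))) then
          p2 ((str (t a)).length - (str r).length) else 0) ?_ ht
    have hF' : Computable fun p : α × ℕ => F (e p.1) (str (t p.1)) :=
      hF.comp (g := fun p : α × ℕ => p.1) (by fun_prop)
    have hn' : Computable fun p : α × ℕ => nn w (F (e p.1) (str (t p.1))) (y p.1) :=
      hn.comp (g := fun p : α × ℕ => p.1) (by fun_prop)
    have hs' : Computable fun p : α × ℕ => str (t p.1) :=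
      hs.comp (g := fun p : α × ℕ => p.1) (by fun_prop)
    have hr : Computable fun p : α × ℕ => str p.2 := c_str (by fun_prop)
    refine ccond (cdecide (cp_eq (by fun_prop) (csome (csome (cpair (c_take hn' hF')
      (by fun_prop)))))) (c_p2 (csub (clength hs') (clength hr))) (Computable.const 0)

theorem c_getDnone {H : α → List (Option (List Bool × ℕ))} {r : α → ℕ} (hH : Computable H)
    (hr : Computable r) : Computable fun a => ((H a)[r a]?).getD none :=
  Primrec.option_getD.to_comp.comp (cgetElem hH hr) (Computable.const none)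

theorem c_stp (hk : Computable k) {e t : α → ℕ} {H : α → List (Option (List Bool × ℕ))}
    (he : Computable e) (hH : Computable H) (ht : Computable t) :
    Computable fun a => stp w k (e a) (H a) (t a) := by
  unfold stp
  have hs : Computable fun a => str (t a) := c_str ht
  have hF : Computable fun a => F (e a) (str (t a)) := c_F he hs
  have hl : Computable fun a => lst (cdt w k (e a) (H a) (t a)) (str (t a)).length := by
    refine c_lst (q := fun a y => cdt w k (e a) (H a) (t a) y) ?_ (clength hs)
    exact c_cdt hk (e := fun p : α × ℕ => e p.1) (t := fun p => t p.1) (H := fun p => H p.1)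
      (y := fun p => p.2) (by fun_prop) (by fun_prop) (by fun_prop) (by fun_prop)
  refine ccond ?_ (Computable.const none) (ccond (cdecide (cp_lt hl (clength hs)))
    (csome (cpair (c_take (c_nn hF hl) hF) hl)) (Computable.const none))
  refine c_exB (q := fun a r => (((H a)[r]?).getD none).isSome &&
    decide (str r <+: str (t a))) ?_ ht
  refine cand (cisSome (c_getDnone (H := fun p : α × ℕ => H p.1) (r := fun p => p.2)
    (by fun_prop) (by fun_prop))) ?_
  exact c_prefix (l := fun p : α × ℕ => str p.2) (r := fun p => str (t p.1))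
    (c_str (by fun_prop)) (hs.comp (g := fun p : α × ℕ => p.1) (by fun_prop))

theorem c_Hs (hk : Computable k) {e t : α → ℕ} (he : Computable e) (ht : Computable t) :
    Computable fun a => Hs w k (e a) (t a) := by
  have h := Computable.nat_rec (f := t) (g := fun _ : α => ([] : List (Option (List Bool × ℕ))))
    (h := fun (a : α) (y : ℕ × List (Option (List Bool × ℕ))) =>
      y.2 ++ [stp w k (e a) y.2 y.1]) ht (Computable.const [])
    (show Computable fun x : α × (ℕ × List (Option (List Bool × ℕ))) =>
      x.2.2 ++ [stp w k (e x.1) x.2.2 x.2.1] by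
      have h1 : Computable fun x : α × (ℕ × List (Option (List Bool × ℕ))) =>
          stp w k (e x.1) x.2.2 x.2.1 :=
        c_stp hk (e := fun x : α × (ℕ × List (Option (List Bool × ℕ))) => e x.1)
          (H := fun x => x.2.2) (t := fun x => x.2.1) (by fun_prop) (by fun_prop)
          (by fun_prop)
      exact cappend (by fun_prop) (ccons h1 (Computable.const [])))
  refine h.of_eq fun a => ?_
  generalize t a = n
  induction n with
  | zero => rfl
  | succ n ih => simp only [Hs]; rw [← ih]

theorem c_ea (hk : Computable k) {e t : α → ℕ} (he : Computable e) (ht : Computable t) :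
    Computable fun a => ea w k (e a) (t a) := by
  unfold ea
  exact c_stp hk he (c_Hs hk he ht) ht

theorem re_Le (hk : Computable k) (e : ℕ) : REPred (Le w k e) := by
  refine RE.ex (p := fun (y : ℕ) (p : List Bool × ℕ) => 2 ^ (str p.2).length ≤
    am w k e p.1 y (str p.2).length p.2 * 2 ^ (e + 3 + k y + 1)) ?_
  have hs : Computable fun x : ℕ × (List Bool × ℕ) => str x.2.2 := c_str (by fun_prop)
  have hk' : Computable fun x : ℕ × (List Bool × ℕ) => k x.1 := hk.comp (by fun_prop)
  have h1 : Computable fun x : ℕ × (List Bool × ℕ) =>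
      am w k e x.2.1 x.1 (str x.2.2).length x.2.2 := by
    unfold am
    refine c_smB (q := fun (x : ℕ × (List Bool × ℕ)) r =>
      bif decide (ea w k e r = some (x.2.1, x.1)) then
        p2 ((str x.2.2).length - (str r).length) else 0) ?_ (by fun_prop)
    have he : Computable fun p : (ℕ × (List Bool × ℕ)) × ℕ => ea w k e p.2 :=
      c_ea hk (e := fun _ => e) (by fun_prop) (by fun_prop)
    have hr : Computable fun p : (ℕ × (List Bool × ℕ)) × ℕ => str p.2 := c_str (by fun_prop)
    have hs' : Computable fun p : (ℕ × (List Bool × ℕ)) × ℕ => str p.1.2.2 :=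
      c_str (by fun_prop)
    exact ccond (cdecide (cp_eq he (by fun_prop)))
      (c_p2 (csub (clength hs') (clength hr))) (Computable.const 0)
  have h2 : Computable fun x : ℕ × (List Bool × ℕ) => p2 (str x.2.2).length :=
    c_p2 (clength hs)
  have h3 : Computable fun x : ℕ × (List Bool × ℕ) => p2 (e + 3 + k x.1 + 1) :=
    c_p2 (cadd (cadd (by fun_prop) hk') (Computable.const 1))
  exact RE.le h2 (cmul h1 h3)

end comp

end Pool.Agent.H587R2.IPC
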