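import Pool.Agent.H587R2.NCE.Red

/-!
Functionals acting on strings, prefixes, enumeration of strings in length-lexicographic order.
-/

namespace Pool.Agent.H587R2.IPC

open Pool.Agent.Helper446 Pool.Agent.Helper446.RE Pool.Agent.Helper446.Oracle
open Pool.Agent.H587R2.NCE
open Encodable

/-- Extension of a string by `false`. -/
def xt (ζ : List Bool) (i : ℕ) : Bool := (ζ[i]?).getD false

theorem xt_sg {X : ℕ → Bool} {n i : ℕ} (h : i < n) : xt (sg X n) i = X i := by
  unfold xt; rw [sg_get X h]; rfl

theorem sg_take (X : ℕ → Bool) {m n : ℕ} (h : m ≤ n) : (sg X n).take m = sg X m := by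
  refine List.ext_getElem? fun i => ?_
  rw [List.getElem?_take]
  by_cases hi : i < m
  · rw [if_pos hi, sg_get X hi, sg_get X (by omega)]
  · rw [if_neg hi, List.getElem?_eq_none (by rw [sg_length]; omega)]

theorem sg_xt {ζ : List Bool} {n : ℕ} (h : n ≤ ζ.length) : sg (xt ζ) n = ζ.take n := by
  refine List.ext_getElem? fun i => ?_
  rw [List.getElem?_take]
  by_cases hi : i < n
  · rw [if_pos hi, sg_get _ hi]
    unfold xt
    rw [List.getElem?_eq_getElem (by omega)]
    rfl
  · rw [if_neg hi, List.getElem?_eq_none (by rw [sg_length]; omega)]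

theorem sg_xt_self (ζ : List Bool) : sg (xt ζ) ζ.length = ζ := by
  rw [sg_xt le_rfl, List.take_length]

theorem sg_prefix {x y : ℕ → Bool} {m n : ℕ} (h : m ≤ n) (hxy : ∀ i < m, x i = y i) :
    sg x m <+: sg y n := by
  rw [sg_congr hxy, ← sg_take y h]
  exact List.take_prefix _ _

theorem sg_mono (x : ℕ → Bool) {m n : ℕ} (h : m ≤ n) : sg x m <+: sg x n :=
  sg_prefix h fun _ _ => rfl

theorem prefix_sg_iff {σ : List Bool} {x : ℕ → Bool} {n : ℕ} (h : σ.length ≤ n) :
    σ <+: sg x n ↔ σ = sg x σ.length := by
  rw [List.prefix_iff_eq_take, sg_take x h]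

theorem prefix_xt {ζ ζ' : List Bool} (h : ζ <+: ζ') {i : ℕ} (hi : i < ζ.length) :
    xt ζ i = xt ζ' i := by
  obtain ⟨t, rfl⟩ := h
  unfold xt
  rw [List.getElem?_append_left hi]

/-- The output of the `e`-th functional on a string. -/
def F (e : ℕ) (ζ : List Bool) : List Bool :=
  sg (fun y => vl e (xt ζ) ζ.length y) (lst (fun y => !(dn e (xt ζ) ζ.length y)) ζ.length)

theorem F_length (e : ℕ) (ζ : List Bool) :
    (F e ζ).length = lst (fun y => !(dn e (xt ζ) ζ.length y)) ζ.length := by
  unfold F; rw [sg_length]

theorem F_eq (e : ℕ) (ζ : List Bool) :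
    F e ζ = sg (fun y => vl e (xt ζ) ζ.length y) (F e ζ).length := by
  rw [F_length]; rfl

theorem F_dn {e : ℕ} {ζ : List Bool} {y : ℕ} (h : y < (F e ζ).length) :
    dn e (xt ζ) ζ.length y = true := by
  rw [F_length] at h
  have := lst_min h
  simpa using this

theorem F_mono (e : ℕ) {ζ ζ' : List Bool} (h : ζ <+: ζ') : F e ζ <+: F e ζ' := by
  have hl : ζ.length ≤ ζ'.length := h.length_le
  have hx : ∀ i < ζ.length, xt ζ i = xt ζ' i := fun i hi => prefix_xt h hi
  have hL : (F e ζ).length ≤ (F e ζ').length := by
    by_contra hc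
    push Not at hc
    have h1 : dn e (xt ζ) ζ.length (F e ζ').length = true := F_dn hc
    have h2 : dn e (xt ζ') ζ'.length (F e ζ').length = true := by
      rw [dn_congr hx] at h1
      exact dn_mono hl h1
    have h3 : (F e ζ).length ≤ ζ.length := by
      unfold F; rw [sg_length]; exact lst_le _ _
    have h4 : (F e ζ').length < ζ'.length := by omega
    have h5 : lst (fun y => !(dn e (xt ζ') ζ'.length y)) ζ'.length = (F e ζ').length :=
      (F_length e ζ').symm
    have h6 := lst_of_lt (q := fun y => !(dn e (xt ζ') ζ'.length y)) (n := ζ'.length)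
      (by rw [h5]; exact h4)
    rw [h5, h2] at h6
    cases h6
  have key : ∀ y < (F e ζ).length,
      vl e (xt ζ) ζ.length y = vl e (xt ζ') ζ'.length y := by
    intro y hy
    have h1 := F_dn hy
    have h2 : dn e (xt ζ') ζ'.length y = true := F_dn (lt_of_lt_of_le hy hL)
    have c1 : cv e (xt ζ) ζ.length y (vl e (xt ζ) ζ.length y) = true := by
      unfold cv; rw [h1]; simp
    have c2 : cv e (xt ζ') ζ'.length y (vl e (xt ζ') ζ'.length y) = true := by
      unfold cv; rw [h2]; simp
    exact cv_unique (fun i hi _ => hx i hi) c1 c2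
  have h3 := sg_prefix hL key
  rw [← F_eq, ← F_eq] at h3
  exact h3

/-- The `e`-th functional computes `Y` from `X`. -/
def Cmp (e : ℕ) (X Y : ℕ → Bool) : Prop := ∀ n, ∃ m, sg Y n <+: F e (sg X m)

theorem exists_Cmp {X Y : ℕ → Bool} (h : R Y X) : ∃ e, Cmp e X Y := by
  obtain ⟨e, h1, h2⟩ := index_total h.1 h.2
  refine ⟨e, fun n => ?_⟩
  have hb : ∃ m, ∀ y < n, cv e X m y (Y y) = true := by
    induction n with
    | zero => exact ⟨0, fun y hy => by omega⟩
    | succ n ih =>
      obtain ⟨m, hm⟩ := ih
      obtain ⟨k, hk⟩ := h1 n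
      refine ⟨max m k, fun y hy => ?_⟩
      rcases Nat.lt_succ_iff_lt_or_eq.1 hy with h | rfl
      · exact cv_mono (le_max_left _ _) (hm y h)
      · exact cv_mono (le_max_right _ _) hk
  obtain ⟨m, hm⟩ := hb
  refine ⟨max m n, ?_⟩
  set M := max m n with hM
  have hlen : (sg X M).length = M := sg_length _ _
  have hx : ∀ i < M, X i = xt (sg X M) i := fun i hi => (xt_sg hi).symm
  have hc : ∀ y < n, cv e (xt (sg X M)) M y (Y y) = true := by
    intro y hy
    exact cv_congr hx (cv_mono (le_max_left _ _) (hm y hy))
  have hL : n ≤ (F e (sg X M)).length := by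
    by_contra hcon
    push Not at hcon
    have h5 : lst (fun y => !(dn e (xt (sg X M)) (sg X M).length y)) (sg X M).length =
        (F e (sg X M)).length := (F_length e _).symm
    have h6 := lst_of_lt (q := fun y => !(dn e (xt (sg X M)) (sg X M).length y))
      (n := (sg X M).length) (by rw [h5, hlen]; omega)
    rw [h5, hlen, dn_of_cv (hc _ hcon)] at h6
    cases h6
  have h1 : F e (sg X M) = sg (fun y => vl e (xt (sg X M)) M y) (F e (sg X M)).length := by
    have := F_eq e (sg X M)
    rw [hlen] at this
    exact this
  rw [h1]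
  refine sg_prefix hL fun y hy => ?_
  have h3 : cv e (xt (sg X M)) M y (vl e (xt (sg X M)) M y) = true := by
    unfold cv; rw [dn_of_cv (hc y hy)]; simp
  exact cv_unique_same (hc y hy) h3

theorem Cmp_eq {e : ℕ} {X Y : ℕ → Bool} (h : Cmp e X Y) (m : ℕ) :
    F e (sg X m) = sg Y (F e (sg X m)).length := by
  obtain ⟨m', hm'⟩ := h (F e (sg X m)).length
  have h1 : F e (sg X m) <+: F e (sg X (max m m')) := F_mono e (sg_mono X (le_max_left _ _))
  have h2 : sg Y (F e (sg X m)).length <+: F e (sg X (max m m')) :=
    hm'.trans (F_mono e (sg_mono X (le_max_right _ _)))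
  have h3 := List.prefix_of_prefix_length_le h1 h2 (by rw [sg_length])
  exact h3.eq_of_length (by rw [sg_length])

section comp
variable {α : Type*} [Primcodable α]

theorem c_xt {ζ : α → List Bool} {i : α → ℕ} (h1 : Computable ζ) (h2 : Computable i) :
    Computable fun a => xt (ζ a) (i a) := by
  unfold xt
  exact Primrec.option_getD.to_comp.comp (cgetElem h1 h2) (Computable.const false)

theorem c_F {e : α → ℕ} {ζ : α → List Bool} (he : Computable e) (hζ : Computable ζ) :
    Computable fun a => F (e a) (ζ a) := by
  unfold F
  refine c_sg (x := fun a y => vl (e a) (xt (ζ a)) (ζ a).length y) ?_ ?_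
  · refine c_vl (e := fun p : α × ℕ => e p.1) (X := fun p => xt (ζ p.1))
      (n := fun p => (ζ p.1).length) (y := fun p => p.2) (by fun_prop) (by fun_prop)
      (by fun_prop) ?_
    exact c_xt (ζ := fun p : (α × ℕ) × ℕ => ζ p.1.1) (i := fun p => p.2) (by fun_prop)
      (by fun_prop)
  · refine c_lst (q := fun a y => !(dn (e a) (xt (ζ a)) (ζ a).length y)) (cnot ?_) (by fun_prop)
    refine c_dn (e := fun p : α × ℕ => e p.1) (X := fun p => xt (ζ p.1))
      (n := fun p => (ζ p.1).length) (y := fun p => p.2) (by fun_prop) (by fun_prop)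
      (by fun_prop) ?_
    exact c_xt (ζ := fun p : (α × ℕ) × ℕ => ζ p.1.1) (i := fun p => p.2) (by fun_prop)
      (by fun_prop)

@[fun_prop] theorem c_take {β : Type*} [Primcodable β] {n : α → ℕ} {l : α → List β}
    (hn : Computable n) (hl : Computable l) : Computable fun a => (l a).take (n a) :=
  Primrec.list_take.to_comp.comp hn hl

@[fun_prop] theorem c_drop {β : Type*} [Primcodable β] {n : α → ℕ} {l : α → List β}
    (hn : Computable n) (hl : Computable l) : Computable fun a => (l a).drop (n a) :=
  Primrec.list_drop.to_comp.comp hn hl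

theorem cp_prefix {l r : α → List Bool} (hl : Computable l) (hr : Computable r) :
    ComputablePred fun a => l a <+: r a := by
  have h : ComputablePred fun a => l a = (r a).take (l a).length :=
    cp_eq hl (c_take (clength hl) hr)
  refine h.of_eq fun a => ?_
  rw [List.prefix_iff_eq_take]

theorem c_prefix {l r : α → List Bool} (hl : Computable l) (hr : Computable r) :
    Computable fun a => decide (l a <+: r a) := cdecide (cp_prefix hl hr)

end comp

/-! ### Enumeration of strings -/

/-- Successor in the length-lexicographic order (least significant digit first). -/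
def nxt : List Bool → List Bool
  | [] => [false]
  | false :: l => true :: l
  | true :: l => false :: nxt l

/-- Position in the length-lexicographic order. -/
def pos : List Bool → ℕ
  | [] => 0
  | false :: l => 2 * pos l + 1
  | true :: l => 2 * pos l + 2

theorem pos_nxt (l : List Bool) : pos (nxt l) = pos l + 1 := by
  induction l with
  | nil => rfl
  | cons b l ih =>
    cases b
    · rfl
    · simp only [nxt, pos, ih]; ring

theorem pos_inj : ∀ {l l' : List Bool}, pos l = pos l' → l = l' := by
  intro l
  induction l with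
  | nil =>
    intro l' h
    cases l' with
    | nil => rfl
    | cons b l' => cases b <;> simp [pos] at h
  | cons b l ih =>
    intro l' h
    cases l' with
    | nil => cases b <;> simp [pos] at h
    | cons b' l' =>
      cases b <;> cases b' <;> simp only [pos] at h
      · rw [ih (by omega : pos l = pos l')]
      · omega
      · omega
      · rw [ih (by omega : pos l = pos l')]

theorem length_nxt (l : List Bool) : l.length ≤ (nxt l).length := by
  induction l with
  | nil => simp [nxt]
  | cons b l ih => cases b <;> simp [nxt, ih]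

/-- The `t`-th string. -/
def str : ℕ → List Bool
  | 0 => []
  | t + 1 => nxt (str t)

theorem pos_str (t : ℕ) : pos (str t) = t := by
  induction t with
  | zero => rfl
  | succ t ih => simp only [str, pos_nxt, ih]

theorem str_pos (l : List Bool) : str (pos l) = l := pos_inj (pos_str _)

theorem str_inj {s t : ℕ} (h : str s = str t) : s = t := by
  rw [← pos_str s, ← pos_str t, h]

theorem length_str {s t : ℕ} (h : s ≤ t) : (str s).length ≤ (str t).length := by
  induction h with
  | refl => exact le_rfl
  | step h ih => exact ih.trans (length_nxt _)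

theorem c_nxt : Computable nxt := by
  have h : Primrec fun l : List Bool => @List.rec Bool (fun _ => List Bool) [false]
      (fun b l IH => bif b then false :: IH else true :: l) l := by
    refine Primrec.list_rec (α := List Bool) (f := fun l => l) (g := fun _ => [false])
      (h := fun _ x => bif x.1 then false :: x.2.2 else true :: x.2.1) Primrec.id
      (Primrec.const _) ?_
    refine Primrec.cond (Primrec.fst.comp Primrec.snd) ?_ ?_
    · exact Primrec.list_cons.comp (Primrec.const false)
        (Primrec.snd.comp (Primrec.snd.comp Primrec.snd))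
    · exact Primrec.list_cons.comp (Primrec.const true)
        (Primrec.fst.comp (Primrec.snd.comp Primrec.snd))
  refine h.to_comp.of_eq fun l => ?_
  induction l with
  | nil => rfl
  | cons b l ih =>
    cases b
    · rfl
    · simp only [nxt, ← ih]; rfl

theorem c_str {α : Type*} [Primcodable α] {t : α → ℕ} (ht : Computable t) :
    Computable fun a => str (t a) := by
  have h : Computable str := by
    have h := Computable.nat_rec (f := fun n : ℕ => n) (g := fun _ : ℕ => ([] : List Bool))
      (h := fun (_ : ℕ) (y : ℕ × List Bool) => nxt y.2) Computable.id (Computable.const [])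
      (show Computable fun p : ℕ × (ℕ × List Bool) => nxt p.2.2 from
        c_nxt.comp (by fun_prop))
    refine h.of_eq fun n => ?_
    induction n with
    | zero => rfl
    | succ n ih => simp only [str]; rw [← ih]
  exact h.comp ht

end Pool.Agent.H587R2.IPC
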