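import Pool.Agent.H587R2.IPC.Cand

/-!
The covering property gives a c.e. trace for blocks of the outputs of functionals.
-/

namespace Pool.Agent.H587R2.IPC

open Pool.Agent.Helper446 Pool.Agent.Helper446.RE Pool.Agent.Helper446.Oracle
open Pool.Agent.H587R2.NCE
open Encodable MeasureTheory
open scoped ENNReal

/-- Block length. -/
def bl (c i p : ℕ) : ℕ := i + p + 2 * c + 5

/-- Code of a block. -/
def tcode (c i p : ℕ) (v : List Bool) : ℕ := Nat.pair (Nat.pair i (Nat.pair p c)) (encode v)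

/-- The block of a string. -/
def blk (p m : ℕ) (ζ : List Bool) : List Bool := (ζ.drop p).take m

theorem blk_prefix {p m : ℕ} {ζ ζ' : List Bool} (h : ζ <+: ζ') (hl : p + m ≤ ζ.length) :
    blk p m ζ' = blk p m ζ := by
  obtain ⟨r, rfl⟩ := h
  unfold blk
  rw [List.drop_append_of_le_length (by omega), List.take_append_of_le_length]
  rw [List.length_drop]
  omega

theorem blk_length {p m : ℕ} {ζ : List Bool} (hl : p + m ≤ ζ.length) :
    (blk p m ζ).length = m := by
  unfold blk
  rw [List.length_take, List.length_drop]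
  omega

theorem tsum_triple : ∑' i : ℕ × (ℕ × ℕ), hp (i.1 + i.2.1 + i.2.2 + 3) = 1 := by
  rw [ENNReal.tsum_prod' (f := fun i : ℕ × (ℕ × ℕ) => hp (i.1 + i.2.1 + i.2.2 + 3))]
  have h1 : ∀ a : ℕ, ∑' b : ℕ × ℕ, hp (a + b.1 + b.2 + 3) = hp (a + 1) := by
    intro a
    rw [ENNReal.tsum_prod' (f := fun b : ℕ × ℕ => hp (a + b.1 + b.2 + 3))]
    have h2 : ∀ p : ℕ, ∑' c : ℕ, hp (a + p + c + 3) = hp (a + p + 2) := by
      intro p
      rw [← tsum_hp (a + p + 2)]
      refine tsum_congr fun c => ?_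
      congr 1; ring
    simp only [h2]
    rw [← tsum_hp (a + 1)]
    refine tsum_congr fun c => ?_
    congr 1; ring
  simp only [h1]
  have := tsum_hp 0
  simp only [add_zero] at this
  rw [this, hp_zero]

theorem trace {B : ℕ → Bool} (hCP : CP B) : ∃ c eT,
    (∀ i p, ∃ v : List Bool, v.length = bl c i p ∧ ∀ s, wst ℕ eT s (tcode c i p v) = false) ∧
    ∀ i p M, p + bl c i p ≤ (F i (sg B M)).length →
      ∃ s, wst ℕ eT s (tcode c i p (blk p (bl c i p) (F i (sg B M)))) = true := by
  classical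
  let I : ℕ → ℕ := fun y => y.unpair.1.unpair.1
  let Pp : ℕ → ℕ := fun y => y.unpair.1.unpair.2.unpair.1
  let Cc : ℕ → ℕ := fun y => y.unpair.1.unpair.2.unpair.2
  let k : ℕ → ℕ := fun y => I y + Pp y + Cc y + 3
  have hk : Computable k := by
    show Computable fun y : ℕ => y.unpair.1.unpair.1 + y.unpair.1.unpair.2.unpair.1 +
      y.unpair.1.unpair.2.unpair.2 + 3
    fun_prop
  let W : ℕ → Prop := fun y => ∃ M, Pp y + bl (Cc y) (I y) (Pp y) ≤ (F (I y) (sg B M)).length ∧
    y.unpair.2 = encode (blk (Pp y) (bl (Cc y) (I y) (Pp y)) (F (I y) (sg B M)))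
  have hWre : REIn (st B) W := by
    refine REIn.ex (S := fun y M => Pp y + bl (Cc y) (I y) (Pp y) ≤
      (F (I y) (sg B M)).length ∧
      y.unpair.2 = encode (blk (Pp y) (bl (Cc y) (I y) (Pp y)) (F (I y) (sg B M)))) ?_
    refine REIn_sg (α := ℕ × ℕ) (S := fun (x : ℕ × ℕ) (η : List Bool) =>
      Pp x.1 + bl (Cc x.1) (I x.1) (Pp x.1) ≤ (F (I x.1) η).length ∧
      x.1.unpair.2 = encode (blk (Pp x.1) (bl (Cc x.1) (I x.1) (Pp x.1)) (F (I x.1) η)))
      ?_ (f := fun x => x.2) (by fun_prop)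
    refine REIn.of_re ?_
    have hF : Computable fun x : (ℕ × ℕ) × List Bool => F (x.1.1.unpair.1.unpair.1) x.2 :=
      c_F (e := fun x : (ℕ × ℕ) × List Bool => x.1.1.unpair.1.unpair.1) (ζ := fun x => x.2)
        (by fun_prop) (by fun_prop)
    have hb : Computable fun x : (ℕ × ℕ) × List Bool =>
        bl (x.1.1.unpair.1.unpair.2.unpair.2) (x.1.1.unpair.1.unpair.1)
          (x.1.1.unpair.1.unpair.2.unpair.1) := by
      unfold bl
      fun_prop
    have hp' : Computable fun x : (ℕ × ℕ) × List Bool =>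
        x.1.1.unpair.1.unpair.2.unpair.1 := by fun_prop
    refine RE.and (RE.le (cadd hp' hb) (clength hF)) (RE.eq (by fun_prop) (cencode ?_))
    unfold blk
    exact c_take hb (c_drop hp' hF)
  have hv : ∀ x : ℕ × (ℕ × ℕ), ∃ v, ∀ M, x.2.1 + bl x.2.2 x.1 x.2.1 ≤
      (F x.1 (sg B M)).length → blk x.2.1 (bl x.2.2 x.1 x.2.1) (F x.1 (sg B M)) = v := by
    intro x
    by_cases h : ∃ M, x.2.1 + bl x.2.2 x.1 x.2.1 ≤ (F x.1 (sg B M)).length
    · obtain ⟨M, hM⟩ := h
      refine ⟨blk x.2.1 (bl x.2.2 x.1 x.2.1) (F x.1 (sg B M)), fun M' hM' => ?_⟩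
      rcases le_total M M' with h | h
      · exact blk_prefix (F_mono _ (sg_mono B h)) hM
      · exact (blk_prefix (F_mono _ (sg_mono B h)) hM').symm
    · exact ⟨[], fun M hM => absurd ⟨M, hM⟩ h⟩
  choose v hv using hv
  have hW1 : wsum k W ≤ 1 := by
    refine le_trans (wsum_surj (k := k) (T := fun _ : ℕ × (ℕ × ℕ) => True)
      (f := fun x => Nat.pair (Nat.pair x.1 (Nat.pair x.2.1 x.2.2)) (encode (v x))) ?_) ?_
    · rintro y ⟨M, h1, h2⟩
      refine ⟨(I y, (Pp y, Cc y)), trivial, ?_⟩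
      have h3 := hv (I y, (Pp y, Cc y)) M h1
      show Nat.pair (Nat.pair (I y) (Nat.pair (Pp y) (Cc y))) (encode (v (I y, (Pp y, Cc y)))) = y
      rw [← h3, ← h2]
      simp only [I, Pp, Cc, Nat.pair_unpair]
    · unfold wsum
      rw [← tsum_triple]
      refine ENNReal.tsum_le_tsum fun x => ?_
      refine iw_le.trans (le_of_eq ?_)
      have h3 : k (Nat.pair (Nat.pair x.1 (Nat.pair x.2.1 x.2.2)) (encode (v x))) =
          x.1 + x.2.1 + x.2.2 + 3 := by
        simp only [k, I, Pp, Cc, Nat.unpair_pair]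
      exact congrArg hp h3
  obtain ⟨L, hL, hWL, hLt⟩ := hCP k hk W hWre hW1
  obtain ⟨c, hc⟩ := exists_hp_mul_le hLt
  obtain ⟨eT, heT⟩ := wst_univ hL
  refine ⟨c, eT, fun i p => ?_, fun i p M hM => ?_⟩
  · by_contra hcon
    push Not at hcon
    have hall : ∀ v : List Bool, v.length = bl c i p → L (tcode c i p v) := by
      intro v hv
      obtain ⟨s, hs⟩ := hcon v hv
      exact (heT _).2 ⟨s, by simpa using hs⟩
    have h1 : wsum (fun g : Fin (bl c i p) → Bool => k (tcode c i p (List.ofFn g)))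
        (fun _ => True) ≤ wsum k L := by
      refine wsum_inj (f := fun g : Fin (bl c i p) → Bool => tcode c i p (List.ofFn g)) ?_ ?_
      · intro g g' _ _ hgg
        have h2 : encode (List.ofFn g) = encode (List.ofFn g') := by
          have := congrArg (fun z : ℕ => z.unpair.2) hgg
          simpa [tcode] using this
        exact List.ofFn_injective (encode_injective h2)
      · intro g _
        exact hall _ (by simp)
    have h2 : wsum (fun g : Fin (bl c i p) → Bool => k (tcode c i p (List.ofFn g)))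
        (fun _ => True) = ((2 ^ (c + 2) : ℕ) : ℝ≥0∞) := by
      have h3 : ∀ g : Fin (bl c i p) → Bool, k (tcode c i p (List.ofFn g)) =
          i + p + c + 3 := by
        intro g
        simp only [k, I, Pp, Cc, tcode, Nat.unpair_pair]
      unfold wsum
      simp only [iw_pos, h3]
      rw [tsum_fintype, Finset.sum_const, Finset.card_univ, nsmul_eq_mul]
      have h4 : Fintype.card (Fin (bl c i p) → Bool) = 2 ^ (bl c i p) := by simp
      rw [h4]
      have h5 : bl c i p = (c + 2) + (i + p + c + 3) := by unfold bl; ring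
      rw [h5, pow_add]
      push_cast
      rw [mul_assoc]
      have h6 := two_pow_mul_hp_self (i + p + c + 3)
      push_cast at h6
      rw [h6, mul_one]
    rw [h2] at h1
    have h3 : hp c * ((2 ^ (c + 2) : ℕ) : ℝ≥0∞) ≤ 1 := le_trans (by gcongr) hc
    have h4 : hp c * ((2 ^ (c + 2) : ℕ) : ℝ≥0∞) = 4 := by
      rw [pow_add]
      push_cast
      rw [← mul_assoc, mul_comm (hp c)]
      have h6 := two_pow_mul_hp_self c
      push_cast at h6
      rw [h6, one_mul]
    rw [h4] at h3
    exact absurd h3 (by norm_num)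
  · refine (heT _).1 (hWL _ ⟨M, ?_, ?_⟩)
    · simpa only [Pp, Cc, I, tcode, Nat.unpair_pair] using hM
    · simp only [Pp, Cc, I, tcode, Nat.unpair_pair]

end Pool.Agent.H587R2.IPC
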