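import Pool.Agent.H587R2.IPC.Constr

/-!
Verification of the construction.
-/

namespace Pool.Agent.H587R2.IPC

open Pool.Agent.Helper446 Pool.Agent.Helper446.RE Pool.Agent.Helper446.Oracle
open Pool.Agent.H587R2.NCE
open Encodable

variable {B : ℕ → Bool} {𝒟 : Dat B}

/-- No requirement below `i` acts from stage `s0` on. -/
def Quiet (𝒟 : Dat B) (i s0 : ℕ) : Prop := ∀ s ≥ s0, ∀ j < i, ¬ Acts 𝒟 s j

theorem acts_or (s : ℕ) : (¬ fi 𝒟 s (stt 𝒟 s) < (stt 𝒟 s).length) ∨ ∃ i, Acts 𝒟 s i := by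
  by_cases h : fi 𝒟 s (stt 𝒟 s) < (stt 𝒟 s).length
  · exact Or.inr ⟨_, rfl, h⟩
  · exact Or.inl h

theorem quiet_ch {i s0 : ℕ} (h : Quiet 𝒟 i s0) {s : ℕ} (hs : s0 ≤ s) {j : ℕ} (hj : j < i) :
    ch (stt 𝒟 s) j = ch (stt 𝒟 s0) j := by
  induction hs with
  | refl => rfl
  | step hs ih =>
    rename_i t
    rw [← ih]
    rcases acts_or (𝒟 := 𝒟) t with h1 | ⟨k, hk⟩
    · exact congrFun (step_none h1).1 j
    · obtain ⟨_, _, _, _, h2, _, _⟩ := step_act hk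
      refine h2 j ?_
      by_contra hc
      exact h t hs k (by omega) hk

theorem quiet_ps {i s0 : ℕ} (h : Quiet 𝒟 i s0) {s : ℕ} (hs : s0 ≤ s) :
    ps 𝒟 (ch (stt 𝒟 s)) i = ps 𝒟 (ch (stt 𝒟 s0)) i :=
  ps_congr fun _ hj => quiet_ch h hs hj

theorem quiet_Bn {i s0 : ℕ} (h : Quiet 𝒟 i s0) {s : ℕ} (hs : s0 ≤ s) {ξ : List Bool}
    (hξ : ξ ∈ Bn 𝒟 (ch (stt 𝒟 s)) s i) : ξ ∈ Bn 𝒟 (ch (stt 𝒟 s0)) s0 i := by
  rw [Bn_congr (c' := ch (stt 𝒟 s0)) fun _ hj => quiet_ch h hs hj] at hξ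
  exact Bn_anti hs hξ

/-- A branch through the `i`-th chunk. -/
theorem drop_prefix {c : ℕ → List Bool} {s i j : ℕ} (hij : i < j) {ξ : List Bool}
    (h : ξ ∈ Bn 𝒟 c s j) : c i <+: ξ.drop (ps 𝒟 c i) := by
  obtain ⟨d, _, _, h1, _⟩ := Bn_decomp hij h
  have h2 : ξ.take (ps 𝒟 c (i + 1)) <+: ξ := List.take_prefix _ _
  rw [h1] at h2
  have h3 : ξ = ξ.take (ps 𝒟 c i) ++ ξ.drop (ps 𝒟 c i) := (List.take_append_drop _ _).symm
  rw [h3] at h2
  have h4 : (ξ.take (ps 𝒟 c i) ++ ξ.drop (ps 𝒟 c i)).take (ps 𝒟 c i) = ξ.take (ps 𝒟 c i) := by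
    rw [← h3]
  rw [h4] at h2
  have h5 := (List.prefix_append_right_inj _).1 h2
  exact (List.prefix_append _ _).trans h5

theorem quiet_chain {i s0 : ℕ} (h : Quiet 𝒟 i s0) {s : ℕ} (hs : s0 ≤ s) :
    ch (stt 𝒟 s) i <+: ch (stt 𝒟 (s + 1)) i := by
  rcases acts_or (𝒟 := 𝒟) s with h1 | ⟨k, hk⟩
  · rw [(step_none h1).1]
  · obtain ⟨ξ, hξ, _, _, h2, h3, _⟩ := step_act hk
    rcases lt_trichotomy i k with h4 | h4 | h4
    · rw [h2 i h4]
    · subst h4
      rw [h3]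
      exact drop_prefix hk.2 hξ
    · exact absurd hk (h s hs k h4)

theorem mono1 {s : ℕ} {ξ' : List Bool} (h : ξ' ∈ BS 𝒟 (s + 1) (stt 𝒟 (s + 1))) :
    ∃ ξ ∈ BS 𝒟 s (stt 𝒟 s), ξ <+: ξ' ∧ ξ.length < ξ'.length := by
  unfold BS at h
  rcases acts_or (𝒟 := 𝒟) s with h1 | ⟨i, hi⟩
  · obtain ⟨h2, h3⟩ := step_none h1
    rw [h2, h3] at h
    refine ⟨ξ'.take (ps 𝒟 (ch (stt 𝒟 s)) (stt 𝒟 s).length),
      Bn_anti (Nat.le_succ s) (Bn_take (by omega) h), List.take_prefix _ _, ?_⟩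
    have h4 := ps_mono_succ (𝒟 := 𝒟) (ch (stt 𝒟 s)) (stt 𝒟 s).length
    rw [List.length_take, Bn_len h]
    omega
  · obtain ⟨ξ, hξ, _, h3, h4, h5, _⟩ := step_act hi
    rw [h3] at h
    obtain ⟨d, hd, h6, h7, _⟩ := Bn_decomp (i := i) (by omega) h
    have hp : ps 𝒟 (ch (stt 𝒟 (s + 1))) i = ps 𝒟 (ch (stt 𝒟 s)) i := ps_congr h4
    rw [Bn_congr h4, hp] at h6
    have h8 := exchange hi.2.le (Bn_anti (Nat.le_succ s) h6) hξ
    refine ⟨_, h8, ?_, ?_⟩
    · have h9 : ξ'.take (ps 𝒟 (ch (stt 𝒟 (s + 1))) (i + 1)) <+: ξ' := List.take_prefix _ _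
      rw [h7, h5, hp] at h9
      rw [← List.append_assoc] at h9
      exact (List.prefix_append _ _).trans h9
    · have h9 : ξ'.take (ps 𝒟 (ch (stt 𝒟 (s + 1))) (i + 1)) <+: ξ' := List.take_prefix _ _
      rw [h7, h5, hp] at h9
      have h10 := h9.length_le
      have h11 := 𝒟.dl_len hd
      have h12 := 𝒟.m_pos i (ps 𝒟 (ch (stt 𝒟 (s + 1))) i + (ch (stt 𝒟 (s + 1)) i).length)
      rw [← List.append_assoc, List.length_append, h11] at h10
      omega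

theorem mono_BS {s t : ℕ} (hst : s ≤ t) {ξ' : List Bool} (h : ξ' ∈ BS 𝒟 t (stt 𝒟 t)) :
    ∃ ξ ∈ BS 𝒟 s (stt 𝒟 s), ξ <+: ξ' := by
  induction hst generalizing ξ' with
  | refl => exact ⟨ξ', h, List.prefix_rfl⟩
  | step hst ih =>
    obtain ⟨ξ, hξ, h1, _⟩ := mono1 h
    obtain ⟨ξ0, h2, h3⟩ := ih hξ
    exact ⟨ξ0, h2, h3.trans h1⟩

theorem BS_length {s : ℕ} {ξ : List Bool} (h : ξ ∈ BS 𝒟 s (stt 𝒟 s)) : s ≤ ξ.length := by
  induction s generalizing ξ with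
  | zero => omega
  | succ s ih =>
    obtain ⟨ξ0, h1, _, h2⟩ := mono1 h
    have := ih h1
    omega

theorem BS_ne (s : ℕ) : ∃ ξ, ξ ∈ BS 𝒟 s (stt 𝒟 s) := Bn_ne _ _ _

theorem len_unb {i s0 : ℕ} (h : Quiet 𝒟 (i + 1) s0) (N : ℕ) :
    ∃ s ≥ N, s0 ≤ s ∧ i < (stt 𝒟 s).length := by
  have key : ∀ k ≤ i + 1, ∃ s ≥ N, s0 ≤ s ∧ k ≤ (stt 𝒟 s).length := by
    intro k hk
    induction k with
    | zero => exact ⟨max N s0, le_max_left _ _, le_max_right _ _, Nat.zero_le _⟩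
    | succ k ih =>
      obtain ⟨s, h1, h2, h3⟩ := ih (by omega)
      by_cases h4 : k + 1 ≤ (stt 𝒟 s).length
      · exact ⟨s, h1, h2, h4⟩
      · have h5 : (stt 𝒟 s).length = k := by omega
        rcases acts_or (𝒟 := 𝒟) s with h6 | ⟨j, hj⟩
        · refine ⟨s + 1, by omega, by omega, ?_⟩
          rw [(step_none h6).2]; omega
        · exact absurd hj (h s h2 j (by have := hj.2; omega))
  obtain ⟨s, h1, h2, h3⟩ := key (i + 1) le_rfl
  exact ⟨s, h1, h2, h3⟩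

theorem pigeon {Z : List (List Bool)} {P : ℕ → List Bool → Prop}
    (h : ∀ N, ∃ s ≥ N, ∃ ζ ∈ Z, P s ζ) : ∃ ζ ∈ Z, ∀ N, ∃ s ≥ N, P s ζ := by
  by_contra hcon
  push Not at hcon
  have key : ∀ Y : List (List Bool), (∀ ζ ∈ Y, ζ ∈ Z) →
      ∃ N, ∀ ζ ∈ Y, ∀ s ≥ N, ¬ P s ζ := by
    intro Y
    induction Y with
    | nil => intro _; exact ⟨0, fun ζ hζ => by cases hζ⟩
    | cons y Y ih =>
      intro hY
      obtain ⟨N, hN⟩ := ih fun ζ hζ => hY ζ (List.mem_cons_of_mem _ hζ)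
      obtain ⟨M, hM⟩ := hcon y (hY y List.mem_cons_self)
      refine ⟨max N M, fun ζ hζ s hs => ?_⟩
      rcases List.mem_cons.1 hζ with rfl | h1
      · exact hM s (by omega)
      · exact hN ζ h1 s (by omega)
  obtain ⟨N, hN⟩ := key Z fun ζ hζ => hζ
  obtain ⟨s, hs, ζ, hζ, hP⟩ := h N
  exact hN ζ hζ s hs hP

theorem finite_step (hB : ¬ Computable B) {i s0 : ℕ} (hq : Quiet 𝒟 i s0) :
    ∃ s1, Quiet 𝒟 (i + 1) s1 := by
  by_contra hcon
  push Not at hcon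
  have hinf : ∀ N, ∃ s ≥ N, s0 ≤ s ∧ Acts 𝒟 s i := by
    intro N
    have h1 := hcon (max N s0)
    unfold Quiet at h1
    push Not at h1
    obtain ⟨s, hs, j, hj, hj'⟩ := h1
    have h2 : j = i := by
      by_contra hne
      exact hq s (by omega) j (by omega) hj'
    subst h2
    exact ⟨s, by omega, by omega, hj'⟩
  have h1 : ∀ N, ∃ s ≥ N, ∃ ζ ∈ Bn 𝒟 (ch (stt 𝒟 s0)) s0 i, s0 ≤ s ∧
      𝒟.cnd s (F i (ζ ++ ch (stt 𝒟 s) i)) = true ∧
      (F i (ζ ++ ch (stt 𝒟 s) i)).length < (F i (ζ ++ ch (stt 𝒟 (s + 1)) i)).length := by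
    intro N
    obtain ⟨s, hs, hs0, ha⟩ := hinf N
    obtain ⟨ξ, hξ, hatt, _, _, h5, _⟩ := step_act ha
    obtain ⟨d, _, h6, _, h7⟩ := Bn_decomp ha.2 hξ
    rw [att_iff, h7] at hatt
    refine ⟨s, hs, _, quiet_Bn hq hs0 h6, hs0, hatt.1, ?_⟩
    rw [h5, List.take_append_drop]
    exact hatt.2
  obtain ⟨ζ, hζ, h2⟩ := pigeon h1
  let f : ℕ → List Bool := fun s => F i (ζ ++ ch (stt 𝒟 s) i)
  have hf1 : ∀ s ≥ s0, f s <+: f (s + 1) := fun s hs =>
    F_mono i ((List.prefix_append_right_inj _).2 (quiet_chain hq hs))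
  have hf2 : ∀ s ≥ s0, ∀ t ≥ s, f s <+: f t := by
    intro s hs t ht
    induction ht with
    | refl => exact List.prefix_rfl
    | step ht ih => exact ih.trans (hf1 _ (le_trans hs ht))
  have hf3 : ∀ n, ∃ s ≥ s0, n ≤ (f s).length := by
    intro n
    induction n with
    | zero => exact ⟨s0, le_rfl, Nat.zero_le _⟩
    | succ n ih =>
      obtain ⟨s, hs, h3⟩ := ih
      obtain ⟨t, ht, _, _, h4⟩ := h2 s
      have h5 : (F i (ζ ++ ch (stt 𝒟 t) i)).length < (f (t + 1)).length := h4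
      have h6 := (hf2 s hs t ht).length_le
      have h7 : (f t).length = (F i (ζ ++ ch (stt 𝒟 t) i)).length := rfl
      exact ⟨t + 1, by omega, by omega⟩
  choose S hS1 hS2 using fun n => hf3 (n + 1)
  let h : ℕ → Bool := fun n => xt (f (S n)) n
  have hxt : ∀ s ≥ s0, ∀ j < (f s).length, xt (f s) j = h j := by
    intro s hs j hj
    have e1 := prefix_xt (hf2 s hs (max s (S j)) (le_max_left _ _)) hj
    have e2 := prefix_xt (hf2 (S j) (hS1 j) (max s (S j)) (le_max_right _ _))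
      (i := j) (by have := hS2 j; omega)
    rw [e1, ← e2]
  have hsg : ∀ s ≥ s0, f s = sg h (f s).length := by
    intro s hs
    conv_lhs => rw [← sg_xt_self (f s)]
    exact sg_congr fun j hj => hxt s hs j hj
  have hhB : h = B := by
    apply 𝒟.cnd_eq
    intro n N
    obtain ⟨s1, hs1, hn⟩ := hf3 n
    obtain ⟨s, hs, hs0, hc, _⟩ := h2 (max N s1)
    refine ⟨s, by omega, ?_⟩
    refine 𝒟.cnd_pre (τ := f s) ?_ hc
    rw [hsg s hs0]
    apply sg_mono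
    have := (hf2 s1 hs1 s (by omega)).length_le
    omega
  apply hB
  rw [← hhB]
  refine computable_of_graph ?_
  have hfc : Computable f := by
    have h3 : Computable fun s => ch (stt 𝒟 s) i :=
      c_ch (cs := fun s => stt 𝒟 s) (j := fun _ => i) c_stt (Computable.const i)
    exact c_F (Computable.const i) (cappend (Computable.const ζ) h3)
  have h4 : REPred fun x : ℕ × Bool => ∃ s, s0 ≤ s ∧ (f s)[x.1]? = some x.2 := by
    refine RE.ex (p := fun (x : ℕ × Bool) s => s0 ≤ s ∧ (f s)[x.1]? = some x.2) ?_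
    refine RE.and (RE.le (Computable.const s0) (by fun_prop)) (RE.eq ?_ (by fun_prop))
    exact cgetElem (hfc.comp (g := fun p : (ℕ × Bool) × ℕ => p.2) (by fun_prop)) (by fun_prop)
  refine h4.of_eq fun x => ?_
  constructor
  · rintro ⟨s, hs, h5⟩
    have h6 : x.1 < (f s).length := by
      by_contra hc
      rw [List.getElem?_eq_none (by omega)] at h5
      cases h5
    rw [← hxt s hs x.1 h6]
    unfold xt
    rw [h5]; rfl
  · intro h5
    refine ⟨S x.1, hS1 x.1, ?_⟩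
    have h6 := hS2 x.1
    rw [← h5]
    show _ = some (xt (f (S x.1)) x.1)
    unfold xt
    rw [List.getElem?_eq_getElem (by omega)]
    rfl

theorem quiet_all (hB : ¬ Computable B) (i : ℕ) : ∃ s0, Quiet 𝒟 i s0 := by
  induction i with
  | zero => exact ⟨0, fun s _ j hj => by omega⟩
  | succ i ih =>
    obtain ⟨s0, h⟩ := ih
    exact finite_step hB h

/-- The members of the class. -/
def InP (𝒟 : Dat B) (X : ℕ → Bool) : Prop := ∀ s, ∃ ξ ∈ BS 𝒟 s (stt 𝒟 s), X ∈ cyl ξ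

theorem cyl_anti {ξ ξ' : List Bool} (h : ξ <+: ξ') : cyl ξ' ⊆ cyl ξ := by
  intro X hX
  rw [mem_cyl] at hX
  rw [mem_cyl_iff h.length_le, ← hX]
  exact h

theorem isClosed_cyl (ξ : List Bool) : IsClosed (cyl ξ) := by
  rw [cyl_eq]
  exact isClosed_set_pi fun i _ => isClosed_singleton

theorem exists_InP (𝒟 : Dat B) : ∃ X, InP 𝒟 X := by
  have h := IsCompact.nonempty_iInter_of_sequence_nonempty_isCompact_isClosed
    (fun s => ⋃ ξ ∈ (BS 𝒟 s (stt 𝒟 s)).toFinset, cyl ξ) ?_ ?_ ?_ ?_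
  · obtain ⟨X, hX⟩ := h
    refine ⟨X, fun s => ?_⟩
    have := Set.mem_iInter.1 hX s
    simpa using this
  · intro s X hX
    simp only [Set.mem_iUnion, List.mem_toFinset, exists_prop] at hX ⊢
    obtain ⟨ξ', h1, h2⟩ := hX
    obtain ⟨ξ, h3, h4, _⟩ := mono1 h1
    exact ⟨ξ, h3, cyl_anti h4 h2⟩
  · intro s
    obtain ⟨ξ, hξ⟩ := BS_ne (𝒟 := 𝒟) s
    refine ⟨xt ξ, ?_⟩
    simp only [Set.mem_iUnion, List.mem_toFinset, exists_prop]
    exact ⟨ξ, hξ, (sg_xt_self ξ).symm⟩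
  · refine IsClosed.isCompact ?_
    exact isClosed_biUnion_finset fun ξ _ => isClosed_cyl ξ
  · intro s
    exact isClosed_biUnion_finset fun ξ _ => isClosed_cyl ξ

theorem InP_not_le (hB : ¬ Computable B) {X : ℕ → Bool} (hX : InP 𝒟 X) : ¬ R X B := by
  intro hR
  obtain ⟨i, hi⟩ := exists_Cmp hR
  obtain ⟨s0, hq⟩ := quiet_all (𝒟 := 𝒟) hB (i + 1)
  have hq' : Quiet 𝒟 i s0 := fun s hs j hj => hq s hs j (by omega)
  obtain ⟨t, ht⟩ := 𝒟.dl_avoid (p := ps 𝒟 (ch (stt 𝒟 s0)) i + (ch (stt 𝒟 s0) i).length) hi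
  obtain ⟨s, hs, hs0, hlen⟩ := len_unb hq t
  obtain ⟨ξ, hξ, hXξ⟩ := hX s
  unfold BS at hξ
  obtain ⟨d, hd, h1, h2, _⟩ := Bn_decomp hlen hξ
  rw [quiet_ps hq' hs0, quiet_ch hq hs0 (Nat.lt_succ_self i)] at hd
  apply ht
  have hanti : ∀ {a b : ℕ}, a ≤ b → ∀ {v p}, v ∈ 𝒟.dl i p b → v ∈ 𝒟.dl i p a := by
    intro a b hab v p hv
    induction hab with
    | refl => exact hv
    | step _ ih => exact ih (𝒟.dl_anti hv)
  have hd' := hanti hs hd
  have hdl := 𝒟.dl_len hd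
  rw [quiet_ps hq' hs0, quiet_ch hq hs0 (Nat.lt_succ_self i)] at h2
  have h3 : ξ.take (ps 𝒟 (ch (stt 𝒟 s)) (i + 1)) <+: ξ := List.take_prefix _ _
  rw [mem_cyl] at hXξ
  rw [h2, hXξ] at h3
  have hpl : ((sg X ξ.length).take (ps 𝒟 (ch (stt 𝒟 s0)) i)).length =
      ps 𝒟 (ch (stt 𝒟 s0)) i := by
    rw [← hXξ]
    have := Bn_len h1
    rw [quiet_ps hq' hs0] at this
    exact this
  set p := ps 𝒟 (ch (stt 𝒟 s0)) i with hp
  set c := ch (stt 𝒟 s0) i with hc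
  have h4 : (sg X ξ.length).take p ++ (c ++ d) = sg X (p + c.length + d.length) := by
    have h5 : ((sg X ξ.length).take p ++ (c ++ d)).length = p + c.length + d.length := by
      rw [List.length_append, hpl, List.length_append]; ring
    have h6 : ((sg X ξ.length).take p ++ (c ++ d)).length ≤ ξ.length := by
      have := h3.length_le
      rwa [sg_length] at this
    have h7 := (prefix_sg_iff h6).1 h3
    rw [h5] at h7
    exact h7
  have h5 : blk (p + c.length) (𝒟.m i (p + c.length))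
      (sg X (p + c.length + 𝒟.m i (p + c.length))) = d := by
    rw [← hdl, ← h4]
    unfold blk
    rw [← List.append_assoc, List.drop_append_of_le_length
      (by rw [List.length_append, hpl]), List.drop_of_length_le
      (by rw [List.length_append, hpl]), List.nil_append, List.take_length]
  rw [h5]
  exact hd'

theorem InP_not_ge (hB : ¬ Computable B) {X : ℕ → Bool} (hX : InP 𝒟 X) : ¬ R B X := by
  intro hR
  obtain ⟨i, hi⟩ := exists_Cmp hR
  obtain ⟨s0, hq⟩ := quiet_all (𝒟 := 𝒟) hB (i + 1)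
  have hq' : Quiet 𝒟 i s0 := fun s hs j hj => hq s hs j (by omega)
  set e1 := ps 𝒟 (ch (stt 𝒟 s0)) i + (ch (stt 𝒟 s0) i).length with he1
  have h1 := Cmp_eq hi e1
  set r := (F i (sg X e1)).length with hr
  obtain ⟨s1, hs1⟩ := 𝒟.cnd_lim r
  obtain ⟨m, hm⟩ := hi (r + 1)
  obtain ⟨s, hs, hs0, hlen⟩ := len_unb hq (max s1 (max m e1))
  obtain ⟨ξ, hξ, hXξ⟩ := hX s
  have hls := BS_length hξ
  rw [mem_cyl] at hXξ
  have hatt : att 𝒟 s (stt 𝒟 s) i ξ = true := by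
    rw [att_iff, quiet_ps hq' hs0, quiet_ch hq hs0 (Nat.lt_succ_self i), ← he1]
    have h2 : ξ.take e1 = sg X e1 := by
      rw [hXξ, sg_take X (by omega)]
    rw [h2]
    constructor
    · rw [h1]; exact hs1 s (by omega)
    · have h3 : sg B (r + 1) <+: F i ξ := by
        rw [hXξ]
        exact hm.trans (F_mono i (sg_mono X (by omega)))
      have := h3.length_le
      rw [sg_length] at this
      omega
  have h2 := lst_lt_of (q := fun i => exL (BS 𝒟 s (stt 𝒟 s)) (att 𝒟 s (stt 𝒟 s) i))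
    (n := (stt 𝒟 s).length) hlen (exL_iff.2 ⟨ξ, hξ, hatt⟩)
  exact hq s hs0 (fi 𝒟 s (stt 𝒟 s)) (Nat.lt_succ_of_le h2.1) ⟨rfl, h2.2.1⟩

/-- The tree in the second case. -/
def gt2 (𝒟 : Dat B) (x : List Bool × List Bool) : Bool :=
  exL (BS 𝒟 x.1.length (stt 𝒟 x.1.length)) fun ξ =>
    decide (x.1 <+: ξ) || decide (ξ <+: x.1)

theorem gt2_iff {X : ℕ → Bool} : (∀ n, gt2 𝒟 (sg X n, sg B n) = true) ↔ InP 𝒟 X := by
  constructor
  · intro h s
    obtain ⟨ξ0, hξ0⟩ := BS_ne (𝒟 := 𝒟) s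
    have h1 := h (max s ξ0.length)
    unfold gt2 at h1
    rw [exL_iff] at h1
    obtain ⟨ξ', h2, h3⟩ := h1
    simp only [sg_length] at h2
    rw [Bool.or_eq_true, decide_eq_true_eq, decide_eq_true_eq] at h3
    obtain ⟨ξ, h4, h5⟩ := mono_BS (le_max_left s ξ0.length) h2
    have h6 : ξ.length = ξ0.length := by
      rw [Bn_len h4, Bn_len hξ0]
    refine ⟨ξ, h4, ?_⟩
    rw [mem_cyl_iff (n := max s ξ0.length) (by omega)]
    rcases h3 with h3 | h3
    · exact List.prefix_of_prefix_length_le h5 h3 (by rw [sg_length]; omega)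
    · exact h5.trans h3
  · intro h n
    obtain ⟨ξ, h1, h2⟩ := h n
    unfold gt2
    rw [exL_iff]
    simp only [sg_length]
    refine ⟨ξ, h1, ?_⟩
    rw [Bool.or_eq_true, decide_eq_true_eq, decide_eq_true_eq]
    rw [mem_cyl] at h2
    rcases le_total n ξ.length with h3 | h3
    · left; rw [h2]; exact sg_mono X h3
    · right; rw [h2]; exact sg_mono X h3

theorem c_gt2 : Computable (gt2 𝒟) := by
  have hs : Computable fun x : List Bool × List Bool => x.1.length := by fun_prop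
  have h1 : Computable fun x : List Bool × List Bool => stt 𝒟 x.1.length :=
    c_stt.comp hs
  have h2 : Computable fun x : List Bool × List Bool =>
      BS 𝒟 x.1.length (stt 𝒟 x.1.length) := c_BS h1 hs
  have h3 : Computable fun p : (List Bool × List Bool) × List Bool => p.1.1 := by fun_prop
  have h4 : Computable fun p : (List Bool × List Bool) × List Bool => p.2 := by fun_prop
  have h5 : Computable fun p : (List Bool × List Bool) × List Bool =>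
      decide (p.1.1 <+: p.2) || decide (p.2 <+: p.1.1) := cor (c_prefix h3 h4) (c_prefix h4 h3)
  exact c_exL h2 h5

theorem good_of_CP {B : ℕ → Bool} (hB : ¬ Computable B) (hCP : CP B) : Good B := by
  obtain ⟨𝒟⟩ := exists_Dat hCP
  refine ⟨gt2 𝒟, c_gt2, ?_, ?_⟩
  · obtain ⟨X, hX⟩ := exists_InP 𝒟
    exact ⟨X, gt2_iff.2 hX⟩
  · intro X hX
    rw [gt2_iff] at hX
    exact ⟨InP_not_le hB hX, InP_not_ge hB hX⟩

theorem good {B : ℕ → Bool} (hB : ¬ Computable B) : Good B := by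
  by_cases h : CP B
  · exact good_of_CP hB h
  · exact good_of_not_CP h

end Pool.Agent.H587R2.IPC
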