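import Pool.Agent.H587R2.IPC.Str

/-!
Weights, the uniform measure on Cantor space, the covering property.
-/

namespace Pool.Agent.H587R2.IPC

open Pool.Agent.Helper446 Pool.Agent.Helper446.RE Pool.Agent.Helper446.Oracle
open Pool.Agent.H587R2.NCE
open Encodable MeasureTheory
open scoped ENNReal

/-- The weight `2^{-n}`. -/
noncomputable def hp (n : ℕ) : ℝ≥0∞ := (2 : ℝ≥0∞)⁻¹ ^ n

theorem hp_zero : hp 0 = 1 := by simp [hp]

theorem hp_add (m n : ℕ) : hp (m + n) = hp m * hp n := by simp [hp, pow_add]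

theorem hp_pos (n : ℕ) : 0 < hp n := by
  unfold hp
  exact ENNReal.pow_pos (by simp) _

theorem hp_ne_zero (n : ℕ) : hp n ≠ 0 := (hp_pos n).ne'

theorem hp_ne_top (n : ℕ) : hp n ≠ ⊤ := by
  unfold hp
  exact ENNReal.pow_ne_top (by simp)

theorem hp_half (n : ℕ) : hp (n + 1) + hp (n + 1) = hp n := by
  rw [hp_add, ← mul_add]
  have : hp 1 + hp 1 = 1 := by
    simp only [hp, pow_one]
    exact ENNReal.inv_two_add_inv_two
  rw [this, mul_one]

theorem hp_anti {m n : ℕ} (h : m ≤ n) : hp n ≤ hp m := by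
  unfold hp
  exact pow_le_pow_of_le_one (by simp) (by simp) h

theorem two_pow_mul_hp {m n : ℕ} (h : m ≤ n) : ((2 ^ (n - m) : ℕ) : ℝ≥0∞) * hp n = hp m := by
  obtain ⟨d, rfl⟩ := Nat.exists_eq_add_of_le h
  rw [Nat.add_sub_cancel_left, hp_add, mul_comm (hp m), ← mul_assoc]
  have : ((2 ^ d : ℕ) : ℝ≥0∞) * hp d = 1 := by
    unfold hp
    push_cast
    rw [← mul_pow, ENNReal.mul_inv_cancel (by simp) (by simp), one_pow]
  rw [this, one_mul]

theorem two_pow_mul_hp_self (n : ℕ) : ((2 ^ n : ℕ) : ℝ≥0∞) * hp n = 1 := by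
  have := two_pow_mul_hp (m := 0) (n := n) (by omega)
  rw [hp_zero] at this
  simpa using this

theorem tsum_hp (c : ℕ) : ∑' n : ℕ, hp (n + c + 1) = hp c := by
  have h1 : ∀ n, hp (n + c + 1) = hp (c + 1) * (2 : ℝ≥0∞)⁻¹ ^ n := by
    intro n
    rw [show n + c + 1 = (c + 1) + n by ring, hp_add]; rfl
  simp only [h1]
  rw [ENNReal.tsum_mul_left, ENNReal.tsum_geometric]
  have h2 : (1 - (2 : ℝ≥0∞)⁻¹)⁻¹ = 2 := by
    rw [ENNReal.one_sub_inv_two, inv_inv]
  rw [h2, mul_two]
  exact hp_half c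

/-- The indicator weight. -/
noncomputable def iw (P : Prop) (x : ℝ≥0∞) : ℝ≥0∞ := by
  classical exact if P then x else 0

theorem iw_pos {P : Prop} {x : ℝ≥0∞} (h : P) : iw P x = x := by
  unfold iw; rw [if_pos h]

theorem iw_neg {P : Prop} {x : ℝ≥0∞} (h : ¬ P) : iw P x = 0 := by
  unfold iw; rw [if_neg h]

theorem iw_le {P : Prop} {x : ℝ≥0∞} : iw P x ≤ x := by
  by_cases h : P
  · rw [iw_pos h]
  · rw [iw_neg h]; exact zero_le

theorem iw_mono {P Q : Prop} {x : ℝ≥0∞} (h : P → Q) : iw P x ≤ iw Q x := by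
  by_cases hP : P
  · rw [iw_pos hP, iw_pos (h hP)]
  · rw [iw_neg hP]; exact zero_le

theorem iw_mul {P : Prop} {x y : ℝ≥0∞} : iw P (x * y) = x * iw P y := by
  by_cases h : P
  · rw [iw_pos h, iw_pos h]
  · rw [iw_neg h, iw_neg h, mul_zero]

/-- Total weight of a set. -/
noncomputable def wsum {ι : Type*} (k : ι → ℕ) (S : ι → Prop) : ℝ≥0∞ :=
  ∑' y, iw (S y) (hp (k y))

theorem wsum_mono {ι : Type*} {k : ι → ℕ} {S T : ι → Prop} (h : ∀ y, S y → T y) :
    wsum k S ≤ wsum k T :=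
  ENNReal.tsum_le_tsum fun y => iw_mono (h y)

/-- The covering property of an oracle. -/
def CP (B : ℕ → Bool) : Prop :=
  ∀ k : ℕ → ℕ, Computable k → ∀ W : ℕ → Prop, REIn (st B) W → wsum k W ≤ 1 →
    ∃ L : ℕ → Prop, REPred L ∧ (∀ y, W y → L y) ∧ wsum k L ≠ ⊤

/-! ### Uniform measure -/

/-- Fair coin. -/
noncomputable def coin : Measure Bool :=
  (2 : ℝ≥0∞)⁻¹ • Measure.dirac true + (2 : ℝ≥0∞)⁻¹ • Measure.dirac false

theorem coin_singleton (b : Bool) : coin {b} = (2 : ℝ≥0∞)⁻¹ := by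
  unfold coin
  cases b <;> simp

instance : IsProbabilityMeasure coin := by
  constructor
  unfold coin
  simp [ENNReal.inv_two_add_inv_two]

/-- Uniform measure. -/
noncomputable def mu : Measure (ℕ → Bool) := Measure.infinitePi fun _ => coin

instance : IsProbabilityMeasure mu := by unfold mu; infer_instance

/-- Cylinders. -/
def cyl (ζ : List Bool) : Set (ℕ → Bool) := {X | ζ = sg X ζ.length}

theorem cyl_eq (ζ : List Bool) :
    cyl ζ = Set.pi (Finset.range ζ.length : Set ℕ) fun i => {xt ζ i} := by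
  ext X
  simp only [cyl, Set.mem_ofPred_eq, Finset.coe_range, Set.mem_pi, Set.mem_Iio,
    Set.mem_singleton_iff]
  constructor
  · intro h i hi
    conv_rhs => rw [h]
    exact (xt_sg hi).symm
  · intro h
    conv_lhs => rw [← sg_xt_self ζ]
    exact sg_congr fun i hi => (h i hi).symm

theorem mu_cyl (ζ : List Bool) : mu (cyl ζ) = hp ζ.length := by
  unfold mu
  rw [cyl_eq, Measure.infinitePi_pi _ (fun i _ => MeasurableSet.singleton _)]
  simp [coin_singleton, hp]

theorem measurable_cyl (ζ : List Bool) : MeasurableSet (cyl ζ) := by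
  rw [cyl_eq]
  exact MeasurableSet.pi (Finset.countable_toSet _) fun i _ => MeasurableSet.singleton _

theorem mem_cyl {ζ : List Bool} {X : ℕ → Bool} : X ∈ cyl ζ ↔ ζ = sg X ζ.length := Iff.rfl

theorem mem_cyl_iff {ζ : List Bool} {X : ℕ → Bool} {n : ℕ} (h : ζ.length ≤ n) :
    X ∈ cyl ζ ↔ ζ <+: sg X n := (prefix_sg_iff h).symm

theorem cyl_disjoint {ζ ζ' : List Bool} (h1 : ¬ ζ <+: ζ') (h2 : ¬ ζ' <+: ζ) :
    Disjoint (cyl ζ) (cyl ζ') := by
  rw [Set.disjoint_left]
  intro X hX hX'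
  rw [mem_cyl] at hX hX'
  rcases le_total ζ.length ζ'.length with h | h
  · apply h1
    rw [hX, hX']
    exact sg_mono X (by simpa [sg_length] using h)
  · apply h2
    rw [hX, hX']
    exact sg_mono X (by simpa [sg_length] using h)

/-- Kraft's inequality for a sequence of pairwise incompatible strings. -/
theorem kraft {P : ℕ → Prop} {z : ℕ → List Bool}
    (h : ∀ s t, s ≠ t → P s → P t → ¬ z s <+: z t) : ∑' t, iw (P t) (hp (z t).length) ≤ 1 := by
  classical
  have h1 : ∀ t, iw (P t) (hp (z t).length) = mu (if P t then cyl (z t) else ∅) := by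
    intro t
    by_cases ht : P t
    · rw [iw_pos ht, if_pos ht, mu_cyl]
    · rw [iw_neg ht, if_neg ht, measure_empty]
  simp only [h1]
  refine (tsum_meas_le_meas_iUnion_of_disjoint mu (fun t => ?_) ?_).trans prob_le_one
  · by_cases ht : P t
    · rw [if_pos ht]; exact measurable_cyl _
    · rw [if_neg ht]; exact MeasurableSet.empty
  · intro s t hst
    show Disjoint (if P s then cyl (z s) else ∅) (if P t then cyl (z t) else ∅)
    by_cases hs : P s
    · by_cases ht : P t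
      · rw [if_pos hs, if_pos ht]
        exact cyl_disjoint (h s t hst hs ht) (h t s hst.symm ht hs)
      · rw [if_neg ht]; exact Set.disjoint_empty _
    · rw [if_neg hs]; exact Set.empty_disjoint _

end Pool.Agent.H587R2.IPC
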